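import Pool.Agent.Helper63.XP.StA

/-!
# Project XP: assembly of the finite theorem for `1 < p < 2`
-/

set_option autoImplicit false

namespace Pool.Agent.Helper63.XP

open Finset
open Pool.Agent.Helper63.XR (gen blk wt StTrh StRkt StBon)

variable {P : Type} [Fintype P] [DecidableEq P] {k b : ℕ} {d m J Q : ℕ → ℕ} {B : ℕ → ℝ} {S : Type} [Fintype S]
  [DecidableEq S]

theorem few_sub (g : LP P k b d m J Q B) (t : S → ℝ) (lam : ℝ) (Bad : Finset (S × P)) (l : ℕ) :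
    Few g t lam Bad l ⊆ Al g t l := by
  unfold Few; exact Finset.filter_subset _ _

open Classical in
theorem cap_sub (g : LP P k b d m J Q B) (t : S → ℝ) (p : ℝ) (E : Matrix (S × P) (S × P) ℂ) (ε : ℝ)
    (ψ : ℕ → (S × P) → (S × P) → ℂ) (l q : ℕ) : Cap g t p E ε ψ l q ⊆ Al g t l := by
  unfold Cap; exact Finset.filter_subset _ _

theorem np_nonneg {J : Type} [Fintype J] (p : ℝ) (f : J → ℂ) : 0 ≤ np p f :=
  Finset.sum_nonneg fun _ _ => Real.rpow_nonneg (norm_nonneg _) _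

theorem np_smul {J : Type} [Fintype J] (p : ℝ) (c : ℂ) (f : J → ℂ) : np p (c • f) = ‖c‖ ^ p * np p f := by
  unfold np
  rw [Finset.mul_sum]
  exact Finset.sum_congr rfl fun i _ => by
    rw [Pi.smul_apply, smul_eq_mul, norm_mul, Real.mul_rpow (norm_nonneg _) (norm_nonneg _)]

theorem pc_smul {J : Type} [Fintype J] (φ : J → ℂ) (c : ℂ) (f : J → ℂ) : pc φ (c • f) = c * pc φ f := by
  unfold pc
  rw [Finset.mul_sum]
  exact Finset.sum_congr rfl fun i _ => by simp; ring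

open Classical in
theorem p4_of_cap (g : LP P k b d m J Q B) (t : S → ℝ) (p : ℝ) (hp : 1 < p) (E : Matrix (S × P) (S × P) ℂ) (ε : ℝ)
    (ψ : ℕ → (S × P) → (S × P) → ℂ) (l q : ℕ) (j : S × P) (hj : j ∈ Al g t l) (hc : j ∉ Cap g t p E ε ψ l q)
    (f : S × P → ℂ) (hf : E.mulVec f = f) : ‖pc (ψ q j) f‖ ≤ ε * np p f ^ (1 / p) := by
  have hp0 : 0 < p := by linarith
  have hno : ∀ f : S × P → ℂ, E.mulVec f = f → np p f ≤ 1 → ‖pc (ψ q j) f‖ < ε := by
    intro f hf h1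
    by_contra hcon
    push Not at hcon
    exact hc (by unfold Cap; exact Finset.mem_filter.2 ⟨hj, f, hf, h1, hcon⟩)
  rcases (np_nonneg p f).eq_or_lt with h0 | h0
  · have hz : ∀ i, f i = 0 := by
      intro i
      have := (Finset.sum_eq_zero_iff_of_nonneg (fun i _ => Real.rpow_nonneg (norm_nonneg (f i)) p)).1 h0.symm i
        (Finset.mem_univ i)
      exact norm_eq_zero.1 ((Real.rpow_eq_zero (norm_nonneg _) hp0.ne').1 this)
    have : pc (ψ q j) f = 0 := by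
      unfold pc
      exact Finset.sum_eq_zero fun i _ => by rw [hz i]; simp
    rw [this, ← h0, Real.zero_rpow (by positivity)]; simp
  · set N : ℝ := np p f ^ (1 / p) with hN
    have hNp : 0 < N := Real.rpow_pos_of_pos h0 _
    have h2 := hno (((N⁻¹ : ℝ) : ℂ) • f) (by rw [Matrix.mulVec_smul, hf]) (by
      rw [np_smul, Complex.norm_real, Real.norm_of_nonneg (inv_nonneg.2 hNp.le), Real.inv_rpow hNp.le, hN,
        ← Real.rpow_mul h0.le, one_div_mul_cancel hp0.ne', Real.rpow_one, inv_mul_cancel₀ h0.ne'])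
    rw [pc_smul, norm_mul, Complex.norm_real, Real.norm_of_nonneg (inv_nonneg.2 hNp.le)] at h2
    have h3 : ‖pc (ψ q j) f‖ = N * (N⁻¹ * ‖pc (ψ q j) f‖) := by
      field_simp
    rw [h3, mul_comm ε]
    exact mul_le_mul_of_nonneg_left h2.le hNp.le

theorem DecC.mono {p κ κ' ζ ε z B ha hc τ : ℝ} {d m s0 J Q : ℕ} (h : DecC p κ ζ ε z B ha hc τ d m s0 J Q)
    (h0 : 0 ≤ κ') (hκ : κ' ≤ κ) (hε : 0 ≤ ε) (hB : 0 ≤ B) : DecC p κ' ζ ε z B ha hc τ d m s0 J Q := by
  have hcp := h.hc_pos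
  have hap : 0 < ha := hcp.trans_le h.le
  refine ⟨h.hc_pos, h.le, h.tau, ?_, h.sig2, ?_, ?_, h.noi⟩
  · have := h.sig; linarith
  · exact (mul_le_mul_of_nonneg_right hκ (Real.rpow_nonneg hcp.le _)).trans h.qq
  · refine le_trans ?_ h.ins
    have e1 : (2 * ε) ^ (2 - p) ≥ 0 := Real.rpow_nonneg (by linarith) _
    have e2 : ha ^ (2 - 2 * p) ≥ 0 := Real.rpow_nonneg hap.le _
    have e3 : hc ^ (2 - p) ≥ 0 := Real.rpow_nonneg hcp.le _
    have e4 : hc ^ (-p) ≥ 0 := Real.rpow_nonneg hcp.le _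
    have e5 : τ ^ (2 - p) ≥ 0 := Real.rpow_nonneg h.tau.le _
    have e6 : ha ^ p ≥ 0 := Real.rpow_nonneg hap.le _
    have e7 : (d : ℝ) ^ (2 / p - 2) ≥ 0 := Real.rpow_nonneg (Nat.cast_nonneg _) _
    gcongr

theorem inv_step (hADJ : StAdj) (hGNP : StGnp) (hDCP : StDcp) (hBON : StBon) (hPEL : StPel) (hS1X : StS1x)
    (hS3X : StS3x) (hS5X : StS5x) (hSCX : StScx) (hCAX : StCax) (hTRH : StTrh) (hSFX : StSfx)
    (g : LP P k b d m J Q B) (t : S → ℝ) (p r C K lam : ℝ) (hp : 1 < p) (hp2 : p < 2) (eps z tau ha hc : ℕ → ℝ)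
    (s0 : ℕ → ℕ) (hpar : ParP p r C K lam k d m J Q eps z tau ha hc s0) (hlam : 1 < lam) (hC : 0 < C) (hK : 0 < K)
    (hB : ∀ l, l < k → B l ≤ 2 * d l)
    (E : Matrix (S × P) (S × P) ℂ) (hrank : (E.rank : ℝ) ≤
      Fintype.card S * (b * (C * K * ∑ l ∈ range k, Rr d m (l + 1) * dm p (d l) (m l))))
    (hS : Fintype.card S ≤ 4 * (univ.filter fun s => t s = 1).card) (l : ℕ) (hl : l < k)
    (hinv : Inv g t p lam E (eps (l + 1)) ((k - (l + 1) : ℕ) + 1 : ℝ) (z (l + 1))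
      (((lam - 1) / lam) ^ (l + 1) / 2 ^ (l + 1 + 1)) (l + 1)) :
    Inv g t p lam E (eps l) ((k - l : ℕ) + 1 : ℝ) (z l) (((lam - 1) / lam) ^ l / 2 ^ (l + 1)) l := by
  obtain ⟨Bad, ψ, hsub, h1, h2, h3, h4, h5, hcard⟩ := hinv
  have hlam0 : 0 < lam := by linarith
  have hθ : 0 < (lam - 1) / lam := div_pos (by linarith) hlam0
  have hd1 : ∀ l, 1 ≤ d l := fun l => (hpar.md_pos l).1.trans (hpar.md_pos l).2
  set ψ' := psiN g p lam Bad l ψ with hψ'
  obtain ⟨q1, q2⟩ := hS1X hGNP P k b d m J Q B g S t p lam Bad l ψ hp hlam0 hd1 hl h1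
  have q3 := hS3X hGNP P k b d m J Q B g S t p lam Bad l ψ hp hlam0 hd1 hl h1 h2 h3
  have hz1 := hpar.z_pos (l + 1) hl
  have hz0 := hpar.z_pos l hl.le
  have he0 := hpar.eps_pos l hl.le
  have he1 := hpar.eps_pos (l + 1) hl
  have hkle : ((k - (l + 1) : ℕ) + 1 : ℝ) ≤ (k : ℝ) + 1 := by
    have : ((k - (l + 1) : ℕ) : ℝ) ≤ k := by exact_mod_cast Nat.sub_le k (l + 1)
    linarith
  have hdec := (hpar.dec l hl).mono (κ' := ((k - (l + 1) : ℕ) + 1 : ℝ)) (by positivity) hkle he1.1.le (by positivity)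
  have q5 := hS5X hDCP hBON hPEL hADJ P k b d m J Q B g S t p lam E Bad l ψ ((k - (l + 1) : ℕ) + 1 : ℝ) (z (l + 1))
    (eps (l + 1)) (ha l) (hc l) (tau l) (z l) (s0 l) hp hp2 hlam0 hd1 hl (hB l hl) h4 h5 (by simp) hz1.1.le hz1.2 hdec
  have hkap : ((k - (l + 1) : ℕ) + 1 : ℝ) + 1 = ((k - l : ℕ) + 1 : ℝ) := by
    have : k - l = (k - (l + 1)) + 1 := by omega
    rw [this]; push_cast; ring
  rw [hkap] at q5
  refine ⟨Few g t lam Bad l ∪ (Icc l k).biUnion (fun q => Cap g t p E (eps l) ψ' l q), ψ', ?_, q1, q2, ?_, ?_, q5, ?_⟩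
  · refine Finset.union_subset (few_sub _ _ _ _ _) ?_
    exact Finset.biUnion_subset.2 fun q _ => cap_sub _ _ _ _ _ _ _ _
  · intro j hj hjb
    exact q3 j hj fun h => hjb (Finset.mem_union_left _ h)
  · intro j hj hjb q hq1 hq2 f hf
    refine p4_of_cap g t p hp E (eps l) ψ' l q j hj (fun h => hjb (Finset.mem_union_right _ ?_)) f hf
    exact Finset.mem_biUnion.2 ⟨q, Finset.mem_Icc.2 ⟨hq1, hq2⟩, h⟩
  · -- cardinality
    set m1 := (univ.filter fun s => t s = 1).card with hm1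
    have hAl0 : ((Al g t l).card : ℝ) = m1 * (Rr d m l * b) := (hADJ P k b d m J Q B g).2 S t l hl.le
    have hAl1 : ((Al g t (l + 1)).card : ℝ) = m1 * (Rr d m (l + 1) * b) := (hADJ P k b d m J Q B g).2 S t (l + 1) hl
    have hRpos : ∀ l, 0 < Rr d m l := fun l => Finset.prod_pos fun i _ =>
      div_pos (by exact_mod_cast hd1 i) (by exact_mod_cast (hpar.md_pos i).1)
    have hmpos : (0 : ℝ) < m l := by exact_mod_cast (hpar.md_pos l).1
    have hdpos : (0 : ℝ) < d l := by exact_mod_cast hd1 l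
    have hRs : Rr d m (l + 1) * m l = Rr d m l * d l := by
      unfold Rr
      rw [Finset.prod_range_succ]
      field_simp
    have hcard1 : ((Few g t lam Bad l ∪ (Icc l k).biUnion (fun q => Cap g t p E (eps l) ψ' l q)).card : ℝ) ≤
        (Few g t lam Bad l).card + ∑ q ∈ Icc l k, ((Cap g t p E (eps l) ψ' l q).card : ℝ) := by
      have e1 := Finset.card_union_le (Few g t lam Bad l) ((Icc l k).biUnion (fun q => Cap g t p E (eps l) ψ' l q))
      have e2 : ((Icc l k).biUnion (fun q => Cap g t p E (eps l) ψ' l q)).card ≤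
          ∑ q ∈ Icc l k, (Cap g t p E (eps l) ψ' l q).card := Finset.card_biUnion_le
      have e3 := e1.trans (Nat.add_le_add_left e2 _)
      exact_mod_cast e3
    have hfew : ((Few g t lam Bad l).card : ℝ) ≤ (((lam - 1) / lam) ^ l / 2 ^ (l + 2)) * (m1 * (Rr d m l * b)) := by
      have e1 := hSFX P k b d m J Q B g S t lam Bad l hlam hl hsub
      rw [hAl1] at hcard
      have e2 : (m l : ℝ) * Bad.card ≤
          m l * ((((lam - 1) / lam) ^ (l + 1) / 2 ^ (l + 1 + 1)) * (m1 * (Rr d m (l + 1) * b))) :=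
        mul_le_mul_of_nonneg_left hcard (Nat.cast_nonneg _)
      have e3 := e1.trans e2
      have e4 : (m l : ℝ) * ((((lam - 1) / lam) ^ (l + 1) / 2 ^ (l + 1 + 1)) * (m1 * (Rr d m (l + 1) * b))) =
          ((((lam - 1) / lam) ^ l / 2 ^ (l + 2)) * (m1 * (Rr d m l * b))) * (d l * ((lam - 1) / lam)) := by
        have : (m l : ℝ) * ((((lam - 1) / lam) ^ (l + 1) / 2 ^ (l + 1 + 1)) * (m1 * (Rr d m (l + 1) * b))) =
          (((lam - 1) / lam) ^ (l + 1) / 2 ^ (l + 1 + 1)) * (m1 * ((Rr d m (l + 1) * m l) * b)) := by ring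
        rw [this, hRs, pow_succ ((lam - 1) / lam) l, show l + 1 + 1 = l + 2 from rfl]; ring
      rw [e4] at e3
      exact le_of_mul_le_mul_right e3 (by positivity)
    -- the rank
    set A0 : ℝ := (k + 1 : ℝ) * (4 * k * C * K * ((k : ℝ) + 2) ^ 2) with hA0
    set X0 : ℝ := (((lam - 1) / lam) ^ l / 2 ^ (l + 2)) * eps l ^ 2 * Rr d m l with hX0
    have hdm0 : ∀ i, 0 ≤ dm p (d i) (m i) := fun i => mul_nonneg (Real.rpow_nonneg (Nat.cast_nonneg _) _)
      (Real.rpow_nonneg (Nat.cast_nonneg _) _)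
    set Sg : ℝ := ∑ l ∈ range k, Rr d m (l + 1) * dm p (d l) (m l) with hSgd
    have hSn : 0 ≤ Sg := Finset.sum_nonneg fun i _ => mul_nonneg (hRpos _).le (hdm0 i)
    have hsumX : (k + 1 : ℝ) * (4 * C * K * ((k : ℝ) + 2) ^ 2) * k * Sg ≤ k * X0 := by
      have e1 : ∀ i ∈ range k, (k + 1 : ℝ) * (4 * C * K * ((k : ℝ) + 2) ^ 2) * k *
          (Rr d m (i + 1) * dm p (d i) (m i)) ≤ X0 := by
        intro i hi
        have := hpar.cap l hl i (Finset.mem_range.1 hi)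
        calc (k + 1 : ℝ) * (4 * C * K * ((k : ℝ) + 2) ^ 2) * k * (Rr d m (i + 1) * dm p (d i) (m i))
            = (k + 1 : ℝ) * (4 * k * C * K * ((k : ℝ) + 2) ^ 2) * (Rr d m (i + 1) * dm p (d i) (m i)) := by ring
          _ ≤ _ := this
      calc (k + 1 : ℝ) * (4 * C * K * ((k : ℝ) + 2) ^ 2) * k * Sg
          = ∑ i ∈ range k, (k + 1 : ℝ) * (4 * C * K * ((k : ℝ) + 2) ^ 2) * k *
              (Rr d m (i + 1) * dm p (d i) (m i)) := by rw [hSgd, Finset.mul_sum]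
        _ ≤ ∑ _i ∈ range k, X0 := Finset.sum_le_sum e1
        _ = k * X0 := by rw [Finset.sum_const, Finset.card_range, nsmul_eq_mul]
    have hk0 : (0 : ℝ) < k := by exact_mod_cast (show 0 < k by omega)
    have hsumX' : (k + 1 : ℝ) * (4 * C * K * ((k : ℝ) + 2) ^ 2) * Sg ≤ X0 := by
      have : (k : ℝ) * ((k + 1 : ℝ) * (4 * C * K * ((k : ℝ) + 2) ^ 2) * Sg) ≤ k * X0 := by
        calc (k : ℝ) * ((k + 1 : ℝ) * (4 * C * K * ((k : ℝ) + 2) ^ 2) * Sg)
            = (k + 1 : ℝ) * (4 * C * K * ((k : ℝ) + 2) ^ 2) * k * Sg := by ring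
          _ ≤ _ := hsumX
      exact le_of_mul_le_mul_left this hk0
    have hcap : ∀ q ∈ Icc l k, ((Cap g t p E (eps l) ψ' l q).card : ℝ) * (eps l) ^ 2 ≤
        m1 * b * (4 * C * K * ((k : ℝ) + 2) ^ 2 * Sg) := by
      intro q hq
      obtain ⟨hq1, hq2⟩ := Finset.mem_Icc.1 hq
      have e1 := hSCX hCAX hTRH P k b d m J Q B g S t p E l q ψ' _ ((k - l : ℕ) + 1 : ℝ) (z l)
        (eps l) hp hp2 hrank he0.1 (by simp) hz0.1.le hq1 hq2 q5
      refine e1.trans ?_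
      have e2 : ((k - l : ℕ) + 1 : ℝ) + z l ≤ (k : ℝ) + 2 := by
        have : ((k - l : ℕ) : ℝ) ≤ k := by exact_mod_cast Nat.sub_le k l
        have := hz0.2; have := he0.2; linarith
      have e3 : (((k - l : ℕ) + 1 : ℝ) + z l) ^ 2 ≤ ((k : ℝ) + 2) ^ 2 :=
        pow_le_pow_left₀ (by have := hz0.1; positivity) e2 2
      have e4 : (Fintype.card S : ℝ) ≤ 4 * m1 := by exact_mod_cast hS
      have e5 : (Fintype.card S : ℝ) * (b * (C * K * Sg)) ≤ 4 * m1 * (b * (C * K * Sg)) :=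
        mul_le_mul_of_nonneg_right e4 (by positivity)
      calc (Fintype.card S : ℝ) * (b * (C * K * Sg)) * (((k - l : ℕ) + 1 : ℝ) + z l) ^ 2
          ≤ (4 * m1 * (b * (C * K * Sg))) * ((k : ℝ) + 2) ^ 2 := by
            apply mul_le_mul e5 e3 (by positivity) (by positivity)
        _ = m1 * b * (4 * C * K * ((k : ℝ) + 2) ^ 2 * Sg) := by ring
    have hsum : (∑ q ∈ Icc l k, ((Cap g t p E (eps l) ψ' l q).card : ℝ)) * (eps l) ^ 2 ≤
        (k + 1 : ℝ) * (m1 * b * (4 * C * K * ((k : ℝ) + 2) ^ 2 * Sg)) := by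
      rw [Finset.sum_mul]
      refine (Finset.sum_le_sum hcap).trans ?_
      rw [Finset.sum_const, nsmul_eq_mul]
      have : ((Icc l k).card : ℝ) ≤ k + 1 := by
        rw [Nat.card_Icc]
        exact_mod_cast (Nat.sub_le (k + 1) l)
      exact mul_le_mul_of_nonneg_right this (by positivity)
    have hcapsum : (∑ q ∈ Icc l k, ((Cap g t p E (eps l) ψ' l q).card : ℝ)) ≤
        (((lam - 1) / lam) ^ l / 2 ^ (l + 2)) * (m1 * (Rr d m l * b)) := by
      have e2 : (k + 1 : ℝ) * (m1 * b * (4 * C * K * ((k : ℝ) + 2) ^ 2 * Sg)) ≤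
          ((((lam - 1) / lam) ^ l / 2 ^ (l + 2)) * (m1 * (Rr d m l * b))) * (eps l) ^ 2 := by
        have e3 := mul_le_mul_of_nonneg_left hsumX' (show (0 : ℝ) ≤ m1 * b by positivity)
        calc (k + 1 : ℝ) * (m1 * b * (4 * C * K * ((k : ℝ) + 2) ^ 2 * Sg))
            = m1 * b * ((k + 1 : ℝ) * (4 * C * K * ((k : ℝ) + 2) ^ 2) * Sg) := by ring
          _ ≤ m1 * b * X0 := e3
          _ = _ := by rw [hX0]; ring
      exact le_of_mul_le_mul_right (hsum.trans e2) (by have := he0.1; positivity)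
    rw [hAl0]
    calc ((Few g t lam Bad l ∪ (Icc l k).biUnion (fun q => Cap g t p E (eps l) ψ' l q)).card : ℝ)
        ≤ _ := hcard1
      _ ≤ (((lam - 1) / lam) ^ l / 2 ^ (l + 2)) * (m1 * (Rr d m l * b)) +
          (((lam - 1) / lam) ^ l / 2 ^ (l + 2)) * (m1 * (Rr d m l * b)) := add_le_add hfew hcapsum
      _ = ((lam - 1) / lam) ^ l / 2 ^ (l + 1) * (m1 * (Rr d m l * b)) := by
          rw [pow_succ (2 : ℝ) (l + 1)]; ring

theorem inv_zero (hADJ : StAdj) (hGNP : StGnp) (hDCP : StDcp) (hBON : StBon) (hPEL : StPel) (hS1X : StS1x)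
    (hS3X : StS3x) (hS5X : StS5x) (hSCX : StScx) (hCAX : StCax) (hTRH : StTrh) (hSFX : StSfx) (hBAX : StBax)
    (g : LP P k b d m J Q B) (t : S → ℝ) (p r C K lam : ℝ) (hp : 1 < p) (hp2 : p < 2) (eps z tau ha hc : ℕ → ℝ)
    (s0 : ℕ → ℕ) (hpar : ParP p r C K lam k d m J Q eps z tau ha hc s0) (hk : 1 ≤ k) (hlam : 1 < lam) (hC : 0 < C)
    (hK : 0 < K) (hB : ∀ l, l < k → B l ≤ 2 * d l)
    (E : Matrix (S × P) (S × P) ℂ) (hrank : (E.rank : ℝ) ≤
      Fintype.card S * (b * (C * K * ∑ l ∈ range k, Rr d m (l + 1) * dm p (d l) (m l))))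
    (hflat : ∀ f : S × P → ℂ, E.mulVec f = f → ∀ i : S × P,
      ‖f i‖ ≤ (if g.lev i.2 = 0 then 0 else C * K * dm p (d (g.lev i.2 - 1)) (m (g.lev i.2 - 1))) *
        np p f ^ (1 / p))
    (hS : Fintype.card S ≤ 4 * (univ.filter fun s => t s = 1).card) :
    Inv g t p lam E (eps 0) ((k - 0 : ℕ) + 1 : ℝ) (z 0) (((lam - 1) / lam) ^ 0 / 2 ^ (0 + 1)) 0 := by
  have hθ : 0 < (lam - 1) / lam := div_pos (by linarith) (by linarith)
  have hd1 : ∀ l, 1 ≤ d l := fun l => (hpar.md_pos l).1.trans (hpar.md_pos l).2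
  have key : ∀ n, n ≤ k → Inv g t p lam E (eps (k - n)) ((k - (k - n) : ℕ) + 1 : ℝ) (z (k - n))
      (((lam - 1) / lam) ^ (k - n) / 2 ^ (k - n + 1)) (k - n) := by
    intro n
    induction n with
    | zero =>
      intro _
      have hfl := hpar.flat (k - 1) (by omega)
      have hk1 : k - 1 + 1 = k := by omega
      rw [hk1] at hfl
      have := hBAX P k b d m J Q B g S t p lam E (C * K * dm p (d (k - 1)) (m (k - 1))) (eps k)
        ((k - k : ℕ) + 1 : ℝ) (z k) (((lam - 1) / lam) ^ k / 2 ^ (k + 1)) hp hk hfl (by simp) (by positivity) hd1 (by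
          intro f hf i hi
          have := hflat f hf i
          rw [if_neg (by omega), hi] at this
          exact this)
      exact this
    | succ n ih =>
      intro hn
      have h := ih (by omega)
      have hidx : k - n = (k - (n + 1)) + 1 := by omega
      rw [hidx] at h
      exact inv_step hADJ hGNP hDCP hBON hPEL hS1X hS3X hS5X hSCX hCAX hTRH hSFX g t p r C K lam hp hp2 eps z tau ha hc
        s0 hpar hlam hC hK hB E hrank hS (k - (n + 1)) (by omega) h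
  have := key k le_rfl
  rw [Nat.sub_self] at this
  exact this

end Pool.Agent.Helper63.XP
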