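import Pool.Agent.Helper63.XP.Defs
import Pool.Agent.Helper63.XR.StB
import Pool.Agent.Helper49.KX.St

/-!
# Project XP: statements, part B (the crossed products, `1 ≤ p < ∞`, `p ≠ 2`)

The definitions of the crossed products are those of `Pool/Agent/Helper49/KX/Defs.lean` (`FS`, `cmp`, `tw`, `Rep`, `act`, `nrm`, `IsFp`, ...).  The
matrices `th`, the elements `gx`, the filter `rec` are those of project XR (`XR.FS X`, `XR.cmp`, `XR.tw` are the same as `KX.FS X`, `KX.cmp`, `KX.tw` by `rfl`).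
-/

set_option autoImplicit false

namespace Pool.Agent.Helper63.XP

open Finset Filter Topology MeasureTheory
open scoped ENNReal
open Pool.Agent.Helper63.XR (th rec gx cx StNew)
open Pool.Agent.Helper49.KX (FS cmp tw un ev Cov MS LY Rep act nrm IsFp StEvm StAlg)

/-- the function of an element of `L^p(Y, ν)` -/
noncomputable def fn {p : ℝ≥0∞} {M : MS} (ξ : LY p M) : M.Y → ℂ :=
  letI := M.mY
  ((show Lp ℂ p M.ν from ξ : Lp ℂ p M.ν) : M.Y → ℂ)

/-- almost everywhere in `M` -/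
def AE (M : MS) (P : M.Y → Prop) : Prop :=
  letI := M.mY
  ∀ᵐ y ∂M.ν, P y

/-- the operator of a finite sum along the orbit of every point, on `l^p(ℤ)`, has norm at most `c` -/
def OrbLe {X : Type} [TopologicalSpace X] (p : ℝ) (h : X ≃ₜ X) (g : FS X) (c : ℝ) : Prop :=
  ∀ (x : X) (ξ : ℤ →₀ ℂ), ∑' m : ℤ, ‖g.sum fun n f => f ((h ^ m : X ≃ₜ X) x) * ξ (m - n)‖ ^ p ≤
    c ^ p * ∑' m : ℤ, ‖ξ m‖ ^ p

/-! ### the norm -/

/-- NRG (the norm of `F^p_r`).

Proof. All sums are finite.  For a representation `ρ` let `N(ξ) = (∑_m ‖ξ m‖^p)^(1/p)`, a norm on `ℤ →₀ LY p M` (Minkowski, `Real.Lp_add_le`);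
`act (g + g') ξ = act g ξ + act g' ξ`, `N(act (single n f) ξ) ≤ ‖f‖ N(ξ)` (`‖cmp h m f‖ ≤ ‖f‖`), so `∑ ‖g_n‖` is in the set of `nrm`, which is therefore nonempty,
bounded below by `0`; the inequality for all `c` in the set gives it for the infimum (continuity and monotonicity of `c ↦ c^p` on
`[0, ∞)`): (1).  (2)-(4), (6) follow from (1) with `csInf_le`.  (5) `act (tw h g g') ξ m = act g (act g' ξ) m`, where `act g' ξ` is finitely supported (write it as a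
`Finsupp`, e.g. `Finsupp.onFinset`): `π(cmp h m (f (cmp h (-n) f'))) ξ(m - n - n') = π(cmp h m f) π(cmp h (m - n) f') ξ((m - n) - n')`. -/
def StNrg : Prop :=
  ∀ (p : ℝ≥0∞) [Fact (1 ≤ p)], p ≠ ∞ → ∀ (X : Type) [TopologicalSpace X] [CompactSpace X] (h : X ≃ₜ X),
    (∀ (g : FS X) (ρ : Rep p X) (ξ : ℤ →₀ LY p ρ.M),
      ∑' m : ℤ, ‖act p h ρ g ξ m‖ ^ p.toReal ≤ nrm p h g ^ p.toReal * ∑' m : ℤ, ‖ξ m‖ ^ p.toReal) ∧
    (∀ g : FS X, 0 ≤ nrm p h g) ∧ (∀ g g' : FS X, nrm p h (g + g') ≤ nrm p h g + nrm p h g') ∧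
    (∀ (c : ℂ) (g : FS X), nrm p h (c • g) ≤ ‖c‖ * nrm p h g) ∧
    (∀ g g' : FS X, nrm p h (tw h g g') ≤ nrm p h g * nrm p h g') ∧
    (∀ f : C(X, ℂ), nrm p h (Finsupp.single 0 f) ≤ ‖f‖)

/-- NLX (lower bound of the norm).

Proof. For `x ∈ X` take the representation `π(f) = f(x)` on `L^p` of a one point space (`Unit`, Dirac measure), and for `ξ : ℤ →₀ ℂ` the vectors
`ξ(m) * 1`; `‖c * 1‖ = ‖c‖`.  (1) of StNrg gives OrbLe.  If `nrm g = 0`: `ξ = single 0 1`, the term at `m = n` is `g_n (h^n x)`, so it vanishes for all `x`, `n`. -/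
def StNlx : Prop :=
  StNrg → ∀ (p : ℝ≥0∞) [Fact (1 ≤ p)], p ≠ ∞ → ∀ (X : Type) [TopologicalSpace X] [CompactSpace X] (h : X ≃ₜ X)
    (g : FS X), OrbLe p.toReal h g (nrm p h g) ∧ (nrm p h g = 0 → g = 0)

/-- EXX (existence of `F^p_r(ℤ, X, h)`).

Proof. StAlg gives a ring `A0` with a bijection `ev : FS X → A0`, additive and `ev (tw g g') = ev g * ev g'` (StEvm; `ev` is also linear:
`ev (c • g) = c • ev g`).  `‖a‖ := nrm (ev⁻¹ a)` makes `A0` a normed ring and a normed algebra over `ℂ` (StNrg, StNlx; `‖-a‖ ≤ ‖-1‖ ‖a‖`; put the structure on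
`A0` itself with local instances, e.g. `NormedRing` from the ring structure and `NormedAddCommGroup.ofCore`/`SeminormedRing`, `norm_smul_le`), and
`A = UniformSpace.Completion A0` is a complete normed ring and normed algebra with the isometric dense embedding of `A0`
(`UniformSpace.Completion.coeRingHom`, `Completion.norm_coe`, `Completion.denseRange_coe`); transport `j` and `U`. -/
def StExx : Prop :=
  StNrg → StNlx → StEvm → StAlg → ∀ (p : ℝ≥0∞) [Fact (1 ≤ p)], p ≠ ∞ →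
    ∀ (X : Type) [TopologicalSpace X] [CompactSpace X] (h : X ≃ₜ X),
    ∃ (A : Type) (_ : NormedRing A) (_ : NormedAlgebra ℂ A) (j : C(X, ℂ) →ₐ[ℂ] A) (U : Aˣ), IsFp p h A j U

/-! ### representations of `C(X)` on `L^p`, `p ≠ 2` -/

/-- RAX (Lamperti: isometries of `L^p`, `p ≠ 2`, preserve disjointness; compare `M_RA` of helper43 in project XR).

Proof. For complex `a, b` let `δ(a,b) = 2|a|^p + 2|b|^p - |a+b|^p - |a-b|^p`.  If `p < 2`: `|a+b|^p + |a-b|^p ≤ 2 ((|a+b|² + |a-b|²)/2)^(p/2) =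
2 (|a|² + |b|²)^(p/2) ≤ 2|a|^p + 2|b|^p` (concavity of `x^(p/2)`, then subadditivity, strict unless `ab = 0`), so `δ ≥ 0` and `δ = 0` iff `ab = 0`.
If `p > 2`: the opposite inequalities (convexity, superadditivity), `δ ≤ 0` and `δ = 0` iff `ab = 0`.  `∫ δ(f, g) dν = 2‖f‖^p + 2‖g‖^p - ‖f+g‖^p - ‖f-g‖^p`.  For
disjoint `f, g` it is zero, hence also `∫ δ(T f, T g) = 0`, and `δ(Tf, Tg)` has constant sign, so it vanishes a.e. -/
def StRax : Prop :=
  ∀ (p : ℝ≥0∞) [Fact (1 ≤ p)], p ≠ ∞ → p ≠ 2 → ∀ (M : MS) (T : LY p M → LY p M), (∀ f g, T (f + g) = T f + T g) →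
    (∀ f g, T (f - g) = T f - T g) → (∀ f, ‖T f‖ = ‖f‖) →
    ∀ f g : LY p M, AE M (fun y => fn f y = 0 ∨ fn g y = 0) → AE M (fun y => fn (T f) y = 0 ∨ fn (T g) y = 0)

/-- LOX (a contractive representation of `C(X)` on `L^p`, `p ≠ 2`, is local; compare `M_RB` of helper36 in project XR).

Proof. It suffices to treat real `φ` (linearity).  `u_n = exp(i φ / n)` is unimodular, `π(u_n)` and its inverse `π(conj u_n)` are
contractions, so `π(u_n)` is isometric and by StRax `(π(u_n) f)(π(u_n) g) = 0` a.e.  `n (π(u_n) - 1) f → i π(φ) f` in `L^p` (norm convergence of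
`n (u_n - 1)` to `i φ` in `C(X)`), the same for `g`; along a subsequence all convergences are a.e., also `π(u_n) g → g`.  From
`0 = n ((π(u_n) f)(π(u_n) g) - f g) = (n (π(u_n) - 1) f) (π(u_n) g) + f (n (π(u_n) - 1) g)` one gets `π(φ) f * g + f * π(φ) g = 0` a.e.; multiply by
`f`: `f² π(φ) g = 0` since `f g = 0`. -/
def StLox : Prop :=
  StRax → ∀ (p : ℝ≥0∞) [Fact (1 ≤ p)], p ≠ ∞ → p ≠ 2 → ∀ (X : Type) [TopologicalSpace X] [CompactSpace X] (ρ : Rep p X)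
    (φ : C(X, ℂ)) (f g : LY p ρ.M), AE ρ.M (fun y => fn f y = 0 ∨ fn g y = 0) →
    AE ρ.M (fun y => fn f y = 0 ∨ fn (ρ.π φ g) y = 0)

/-- MUX (the operators `π(φ)` are multiplication operators).

Proof. Let `f0 ∈ L^p(Y, ν)`, `f0 > 0` everywhere (σ-finite: from `exists_pos_lintegral_lt_of_sigmaFinite`, take the `p`-th root), and
`hat φ = (π(φ) f0) / f0`.  Let `ξ ∈ L^p`, `δ > 0`; partition `Y` into countably many measurable cells `E` on which `|ξ/f0 - c_E| ≤ δ` (`c_E ∈ ℂ`; preimages of a partition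
of `ℂ` into small half open squares under the measurable function `ξ/f0`).  By locality (StLox with `f` = a function which is nonzero exactly on `E`, e.g. `1_E f0`)
`1_E π(φ) η = π(φ)(1_E η)` for all `η` (`π(φ)(1_(E^c) η) = 0` a.e. on `E`, `π(φ)(1_E η) = 0` a.e. off `E`).  So
`1_E (π(φ) ξ - hat φ ξ) = π(φ)(1_E (ξ - c_E f0)) - 1_E hat φ (ξ - c_E f0)`, whence with `η = ξ - c_E f0` on `E`, `|η| ≤ δ f0`:
`‖1_E (π(φ) ξ - c_E π(φ) f0)‖ ≤ ‖φ‖ δ ‖1_E f0‖` and `|c_E π(φ) f0 - hat φ ξ| = |π(φ) f0| |c_E - ξ/f0| ≤ δ |π(φ) f0|` on `E`.  Sum of `p`-th powers over the cells: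
`‖π(φ) ξ - hat φ ξ‖ ≤ δ ‖φ‖ ‖f0‖ + δ ‖π(φ) f0‖` (in the sense of `eLpNorm`), `δ → 0`.  (2) `π(φ φ') f0 = π(φ) (π(φ') f0)`.  (3) if `|hat φ| > ‖φ‖ + ε` on a set `E` of positive
measure, `ξ = 1_E f0` contradicts `‖π(φ) ξ‖ ≤ ‖φ‖ ‖ξ‖`.  (4) `π(0) f0 = 0`.  (Alternatively prove (1) first for `ξ = 1_E f0`, then for `ξ = f0 *` simple function, then
by density and continuity.) -/
def StMux : Prop :=
  StLox → StRax → ∀ (p : ℝ≥0∞) [Fact (1 ≤ p)], p ≠ ∞ → p ≠ 2 → ∀ (X : Type) [TopologicalSpace X] [CompactSpace X]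
    (ρ : Rep p X), ∃ hat : C(X, ℂ) → ρ.M.Y → ℂ,
    (∀ φ ξ, AE ρ.M (fun y => fn (ρ.π φ ξ) y = hat φ y * fn ξ y)) ∧
    (∀ φ φ', AE ρ.M (fun y => hat (φ * φ') y = hat φ y * hat φ' y)) ∧
    (∀ φ, AE ρ.M (fun y => ‖hat φ y‖ ≤ ‖φ‖)) ∧ AE ρ.M (fun y => hat 0 y = 0)

/-- XSC (a scalar inequality).

Proof. All sums are finite.  Put `w_j(a) = ∑_b x0 a b u(j + b)`, `a < N`; `∑_a ‖w_j(a)‖^p ≤ r^p ∑_b ‖u(j + b)‖^p` (`OpLe`).  For fixed `m` at most one of the numbers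
`c(m - a)`, `a < N`, is nonzero, so `‖∑_a c(m-a) w_(m-a)(a)‖^p = ∑_a ‖c(m-a)‖^p ‖w_(m-a)(a)‖^p`; sum over `m`, `j = m - a`: `= ∑_j ‖c j‖^p ∑_a ‖w_j(a)‖^p ≤
r^p ∑_j ‖c j‖^p ∑_b ‖u(j+b)‖^p = r^p ∑_m ‖u m‖^p ∑_b ‖c(m - b)‖^p ≤ r^p ∑_m ‖u m‖^p`. -/
def StXsc : Prop :=
  ∀ (p : ℝ) (N : ℕ) (x0 : Matrix (Fin N) (Fin N) ℂ) (r : ℝ) (c : ℤ → ℂ) (u : ℤ →₀ ℂ), 1 ≤ p → 0 ≤ r → OpLe p x0 r →
    (∀ j, ‖c j‖ ≤ 1) → (∀ (j : ℤ) (i : ℕ), 0 < i → i < N → c j * c (j + i) = 0) →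
    ∑' m : ℤ, ‖∑ a : Fin N, c (m - (a : ℕ)) * ∑ b : Fin N, x0 a b * u (m - (a : ℕ) + (b : ℕ))‖ ^ p ≤
      r ^ p * ∑' m : ℤ, ‖u m‖ ^ p

/-- XNX (norm of the element `gx`).

Proof. We show that `r` is in the set of `nrm`.  `act (gx h x0 (cx f)) ξ m = ∑_(a,b<N) x0 a b π(cmp h (m - a) f) ξ(m - a + b)`.  Take `hat` from StMux for `ρ`, and `c_j(y) = hat(cmp h j f)(y)`,
`j ∈ ℤ`: for a.e. `y` (countably many conditions): `|c_j(y)| ≤ 1`, `c_j(y) c_(j+i)(y) = 0` for `0 < i < N` (the product of the functions `cmp h j f` and `cmp h (j+i) f` is zero),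
and the value of `act ... m` at `y` is `∑_a c_(m-a)(y) ∑_b x0 a b ξ(m-a+b)(y)`.  Apply StXsc with `u(m) = ξ(m)(y)`
and integrate: `‖η‖^p = ∫ |η(y)|^p dν` for `η ∈ L^p` (finite sums over `m`). -/
def StXnx : Prop :=
  StMux → StLox → StRax → StXsc → ∀ (p : ℝ≥0∞) [Fact (1 ≤ p)], p ≠ ∞ → p ≠ 2 →
    ∀ (X : Type) [TopologicalSpace X] [CompactSpace X] (h : X ≃ₜ X) (N : ℕ) (x0 : Matrix (Fin N) (Fin N) ℂ)
    (f : C(X, ℝ)) (r : ℝ), 0 ≤ r → OpLe p.toReal x0 r → (∀ x, 0 ≤ f x ∧ f x ≤ 1) →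
    (∀ x, ∀ i : ℕ, 0 < i → i < N → f x * f ((h ^ ((i : ℕ) : ℤ) : X ≃ₜ X) x) = 0) →
    nrm p h (gx h x0 (cx f)) ≤ r

/-! ### the matrices `th` -/

/-- NRX (`th` is approximately contractive on `l^p`).

Proof. Let `L` bound the `|n|`, `n ∈ supp g`; `R > 2L` large (chosen below).  Work along `rec h t` (`M → ∞`, `h^M t → t`), `M > 4R`.  Let `T = th h t M g`, `v : Fin M → ℂ`, read modulo `M`;
for `s ∈ ℤ/M` let `v_s` = `v` restricted to the cyclic window `[s, s + R)`.  Claim: `‖T v_s‖_p ≤ (c + ε/2) ‖v_s‖_p` for large `M`.  If the window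
`[s - L, s + R + L)` does not wrap around, `T v_s` is exactly the orbit operator of the point `t` (on `l^p(ℤ)`) applied to `v_s`, and OrbLe applies.
Otherwise shift the indices by `-M` on the left part of the window: the entries `g_n(h^i t)` with `M - R - L ≤ i < M` are replaced by `g_n(h^(i - M) t)`,
which differ by `g_n(h^(i-M) (h^M t)) - g_n(h^(i-M) t) → 0`, finitely many terms (`|i - M| ≤ R + L`); the error matrix has at most `#supp g` nonzero entries in every row and column,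
each small, so its `l^p` norm is small (for instance `‖E v‖_p ≤ ∑_n (max entry) ‖v‖_p`).  Averaging: for `m` in the core `[s + L, s + R - L)` of the window
`(T v)(m) = (T v_s)(m)`, so `(R - 2L) ∑_m ‖(T v)(m)‖^p ≤ ∑_s ‖T v_s‖_p^p ≤ (c + ε/2)^p ∑_s ‖v_s‖_p^p = (c + ε/2)^p R ‖v‖_p^p`; choose `R` with
`(c + ε/2)^p R/(R - 2L) ≤ (c + ε)^p`. -/
def StNrx : Prop :=
  ∀ (p : ℝ) (X : Type) [TopologicalSpace X] [CompactSpace X] (h : X ≃ₜ X) (t : X) (g : FS X) (c ε : ℝ), 1 ≤ p →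
    0 ≤ c → 0 < ε → OrbLe p h g c → ∀ᶠ M in rec h t, OpLe p (th h t M g) (c + ε)

/-- MLX (`th` is approximately multiplicative; compare `M_MUL` of helper43 in project XR).

Proof. As in `XR.StMul`: the matrix `th (tw g g') - th g * th g'` is a sum over `(m, n) ∈ supp g × supp g'` of matrices with at most one nonzero entry in every row and
every column (row `i`, column congruent to `i - m - n`), whose entries tend to `0` uniformly along `rec h t`.  A matrix with at most one nonzero entry in every row and every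
column, all of norm at most `η`, has `l^p` norm at most `η`; add up (Minkowski, `Real.Lp_add_le`). -/
def StMlx : Prop :=
  ∀ (p : ℝ) (X : Type) [TopologicalSpace X] [CompactSpace X] (h : X ≃ₜ X) (t : X) (g g' : FS X) (ε : ℝ), 1 ≤ p → 0 < ε →
    ∀ᶠ M in rec h t, OpLe p (th h t M (tw h g g') - th h t M g * th h t M g') ε

/-- NEX (correction of approximate exchange data for matrices acting on `l^p`; compare `M_NEM` of helper82 in project XR).

Proof. StNew for the Banach algebra of the continuous linear operators of `PiLp (ENNReal.ofReal p) (fun _ : n => ℂ)` (complete, finite dimensional; `‖1‖ ≤ 1`); `OpLe p M K` for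
`K ≥ 0` is `‖M‖ ≤ K` there (`PiLp.norm_eq_sum`).  `n` empty: trivial.  (`K < 0`: `K ^ p` has absolute value at most `|K| ^ p`, so
`OpLe p M K` implies `OpLe p M |K|`.) -/
def StNex : Prop :=
  StNew → ∀ p : ℝ, 1 ≤ p → ∀ K : ℝ, ∃ K' δ : ℝ, 0 < δ ∧ ∀ (n : Type) [Fintype n] [DecidableEq n] (x y z : Matrix n n ℂ),
    OpLe p x K → OpLe p y K → OpLe p z K → x * y + (1 - x) * z = 1 → OpLe p ((x * y) * (x * y) - x * y) δ →
    ∃ y' z' : Matrix n n ℂ, OpLe p y' K' ∧ OpLe p z' K' ∧ (x * y') * (x * y') = x * y' ∧ 1 - x * y' = (1 - x) * z'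

/-- CPX (compression to the support; compare `M_CMP` of helper42 in project XR).

Proof. As `XR.StCmp`; the `l^p` norm of a submatrix `Y.submatrix ι ι`, `ι` injective, is at most that of `Y`: `(Y.submatrix ι ι) v` is the restriction to `ι` of `Y` applied to the
extension of `v` by zero. -/
def StCpx : Prop :=
  ∀ (p : ℝ) (I J : Type) [Fintype I] [DecidableEq I] [Fintype J] [DecidableEq J] (ι : I → J) (X Y Z : Matrix J J ℂ)
    (K : ℝ), 1 ≤ p → Function.Injective ι → (∀ i j, (i ∉ Set.range ι ∨ j ∉ Set.range ι) → X i j = 0) → OpLe p Y K →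
    OpLe p Z K → (X * Y) * (X * Y) = X * Y → 1 - X * Y = (1 - X) * Z →
    ∃ Y' Z' : Matrix I I ℂ, OpLe p Y' K ∧ OpLe p Z' K ∧
      (X.submatrix ι ι * Y') * (X.submatrix ι ι * Y') = X.submatrix ι ι * Y' ∧
      1 - X.submatrix ι ι * Y' = (1 - X.submatrix ι ι) * Z'

/-- OPX (calculus of `OpLe`).

Proof. Minkowski's inequality (`Real.Lp_add_le`) and composition.  (1) sum, (2) product, (3) unit, (4) negative, (5) monotonicity, (6) a negative constant, (7) reindexing,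
(8) `p = 1`: column sums. -/
def StOpx : Prop :=
  ∀ p : ℝ, 1 ≤ p →
    (∀ (m n : Type) [Fintype m] [Fintype n] (A B : Matrix m n ℂ) (a b : ℝ), 0 ≤ a → 0 ≤ b → OpLe p A a → OpLe p B b →
      OpLe p (A + B) (a + b)) ∧
    (∀ (m n l : Type) [Fintype m] [Fintype n] [Fintype l] (A : Matrix m n ℂ) (B : Matrix n l ℂ) (a b : ℝ), 0 ≤ a → 0 ≤ b →
      OpLe p A a → OpLe p B b → OpLe p (A * B) (a * b)) ∧
    (∀ (m : Type) [Fintype m] [DecidableEq m], OpLe p (1 : Matrix m m ℂ) 1) ∧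
    (∀ (m n : Type) [Fintype m] [Fintype n] (A : Matrix m n ℂ) (a : ℝ), OpLe p A a → OpLe p (-A) a) ∧
    (∀ (m n : Type) [Fintype m] [Fintype n] (A : Matrix m n ℂ) (a b : ℝ), 0 ≤ a → a ≤ b → OpLe p A a → OpLe p A b) ∧
    (∀ (m n : Type) [Fintype m] [Fintype n] (A : Matrix m n ℂ) (a : ℝ), OpLe p A a → OpLe p A |a|) ∧
    (∀ (m n : Type) [Fintype m] [Fintype n] (e : m ≃ n) (A : Matrix n n ℂ) (a : ℝ), OpLe p A a →
      OpLe p (A.submatrix e e) a) ∧
    (∀ (m : Type) [Fintype m] [DecidableEq m] (A : Matrix m m ℂ) (a : ℝ), 0 ≤ a →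
      (OpLe 1 A a ↔ ∀ j, ∑ i, ‖A i j‖ ≤ a))

end Pool.Agent.Helper63.XP
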