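import Pool.Agent.Helper63.XP.AllA
import Pool.Agent.Helper63.XP.StB

/-!
# Project XP: the finite theorem
-/

set_option autoImplicit false

namespace Pool.Agent.Helper63.XP

open Finset
open Pool.Agent.Helper63.XR (gen blk wt StTrh StRkt StBon)

/-- the statement `StPrc` with the hypothesis `1 ≤ m j` -/
def StPrc1 : Prop :=
  ∀ (k : ℕ) (V W : Fin k → Type) [∀ j, Fintype (V j)] [∀ j, DecidableEq (V j)] [∀ j, Fintype (W j)]
    [∀ j, DecidableEq (W j)] (d m gg J Q : ℕ → ℕ) (B : ℕ → ℝ)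
    (st : ∀ j : Fin k, Stp (V j) (W j) (d j) (m j) (gg j) (J j) (Q j) (B j)), (∀ j, 1 ≤ m j) →
    (∀ l, l < k → ∀ y : PT V W → ℂ,
      ∑ c, ‖∑ v ∈ univ.filter (fun v => plev v = l ∧ c ∈ pch (fun j => (st j).ch) v),
        pσ (fun j => (st j).σ) c v * y v‖ ^ 2 ≤ B l * ∑ v, ‖y v‖ ^ 2) ∧
    ∀ l, l < k → ∀ T U : Finset (PT V W), T.Nonempty →
      (∀ t ∈ T, plev t = l ∧ J l ≤ (pch (fun j => (st j).ch) t ∩ U).card) →
      (∀ u ∈ U, 2 ≤ (T.filter fun t => u ∈ pch (fun j => (st j).ch) t).card) → Q l < U.card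

/-- the layered graph from the one step graphs -/
noncomputable def mkLP (hPRA : StPra) (hPRB : StPrb) (hPRC : StPrc1) (k : ℕ) (V W : Fin k → Type) [∀ j, Fintype (V j)]
    [∀ j, DecidableEq (V j)] [∀ j, Fintype (W j)] [∀ j, DecidableEq (W j)] (d m gg J Q : ℕ → ℕ) (B : ℕ → ℝ)
    (st : ∀ j : Fin k, Stp (V j) (W j) (d j) (m j) (gg j) (J j) (Q j) (B j)) (hm : ∀ j, 1 ≤ m j) :
    LP (PT V W) k (∏ j : Fin k, m j * gg j) d m J Q B :=
  have h1 := hPRA k V W d m gg J Q B st hm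
  have h2 := hPRB k V W d m gg J Q B st
  have h3 := hPRC k V W d m gg J Q B st hm
  { lev := plev
    ch := pch fun j => (st j).ch
    σ := pσ fun j => (st j).σ
    lev_le := h1.1
    ch_lev := h1.2.1
    card_lev := h1.2.2.1
    card_ch := h1.2.2.2.1
    card_par := h1.2.2.2.2.1
    share := h1.2.2.2.2.2.1
    tree := h2.1
    par1 := h2.2
    uni := h1.2.2.2.2.2.2
    l2 := h3.1
    core := h3.2 }

theorem ftp12 (hOPX : StOpx) (hTRH : StTrh) (hRKT : StRkt) (hBON : StBon) (hPEL : StPel) (hCAX : StCax) (hDCP : StDcp)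
    (hRTH : StRth) (hCOR : StCor) (hFPL : StFpl) (hRNH : StRnh) (hGDT : StGdt) (hPRA : StPra) (hPRB : StPrb)
    (hPRC : StPrc1) (hPA1 : StPa1) (hPA2 : StPa2) (hGNP : StGnp) (hADJ : StAdj) (hEEX : StEex) (hBAX : StBax)
    (hS1X : StS1x) (hS3X : StS3x) (hS5X : StS5x) (hSCX : StScx) (hSFX : StSfx) (hFNX : StFnx)
    (p : ℝ) (hp : 1 < p) (hp2 : p < 2) : StFTp p := by
  intro r hr K
  obtain ⟨-, -, -, -, hmono, habs, hre, -⟩ := hOPX p hp.le
  set K1 : ℝ := max |K| 1 with hK1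
  have hK11 : (1 : ℝ) ≤ K1 := le_max_right _ _
  set C : ℝ := (1 + r) / 2 with hC
  have hC1 : 1 < C := by rw [hC]; linarith
  have hCr : C < r := by rw [hC]; linarith
  set lam : ℝ := (1 + C) / 2 with hlam
  have hlam1 : 1 < lam := by rw [hlam]; linarith
  have hlamC : lam < C := by rw [hlam]; linarith
  set δ : ℝ := min 1 (r / C - 1) with hδ
  have hC0 : 0 < C := by linarith
  have hδ0 : 0 < δ := by
    rw [hδ]
    refine lt_min one_pos ?_
    have : 1 < r / C := by rw [lt_div_iff₀ hC0]; linarith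
    linarith
  have hδ1 : δ ≤ 1 := min_le_left _ _
  have hCδ : C * (1 + δ) ^ (1 - 1 / p) ≤ r := by
    have h1 : (1 + δ) ^ (1 - 1 / p) ≤ (1 + δ) ^ (1 : ℝ) := by
      refine Real.rpow_le_rpow_of_exponent_le (by linarith) ?_
      have : 0 < 1 / p := by positivity
      linarith
    rw [Real.rpow_one] at h1
    have h2 : 1 + δ ≤ r / C := by
      have := min_le_right 1 (r / C - 1)
      linarith
    calc C * (1 + δ) ^ (1 - 1 / p) ≤ C * (1 + δ) := mul_le_mul_of_nonneg_left h1 hC0.le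
      _ ≤ C * (r / C) := mul_le_mul_of_nonneg_left h2 hC0.le
      _ = r := by field_simp
  obtain ⟨r', e, e', hr', he', hee, hpa⟩ := hPA2 hPA1 p hp hp2
  obtain ⟨N0, hgd⟩ := hGDT hCOR hFPL hRNH r' e e' δ hr' he' hee hδ0
  obtain ⟨k, q0, J, Q, s0, eps, z, tau, ha, hc, hk, hq, hpar⟩ := hpa r C K1 lam hlam1 hlamC hCr hK11 N0
  have hst : ∀ j : ℕ, ∃ (V W : Type) (_ : Fintype V) (_ : DecidableEq V) (_ : Fintype W) (_ : DecidableEq W),
      Nonempty (Stp V W (q0 j ^ e) (q0 j ^ e') ((q0 j ^ e) ^ (2 * r')) (J j) (Q j) ((1 + δ) * (q0 j : ℝ) ^ e)) :=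
    fun j => hgd (q0 j) (hq j).1 (hq j).2.1 (J j) (Q j) (hq j).2.2.1 (hq j).2.2.2
  choose V W iV dV iW dW hne using hst
  let d : ℕ → ℕ := fun l => q0 l ^ e
  let m : ℕ → ℕ := fun l => q0 l ^ e'
  let gg : ℕ → ℕ := fun l => (q0 l ^ e) ^ (2 * r')
  let B : ℕ → ℝ := fun l => (1 + δ) * (q0 l : ℝ) ^ e
  have hd1 : ∀ l, 1 ≤ d l := fun l => (hpar.md_pos l).1.trans (hpar.md_pos l).2
  have hm1 : ∀ l, 1 ≤ m l := fun l => (hpar.md_pos l).1
  have hBd : ∀ l, B l = (1 + δ) * (d l : ℕ) := fun l => by simp [B, d]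
  let g : LP (PT (fun j : Fin k => V j) (fun j : Fin k => W j)) k (∏ j : Fin k, m j * gg j) d m J Q B :=
    mkLP hPRA hPRB hPRC k (fun j : Fin k => V j) (fun j : Fin k => W j) d m gg J Q B (fun j => (hne j).some) hm1
  set b : ℕ := ∏ j : Fin k, m j * gg j with hb
  have hb1 : 1 ≤ b := by
    refine Nat.one_le_iff_ne_zero.2 (Finset.prod_ne_zero_iff.2 fun j _ => ?_)
    have h1 := hm1 j
    have h2 : 1 ≤ gg j := Nat.one_le_pow _ _ (hd1 j)
    exact (Nat.mul_pos h1 h2).ne'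
  set P := PT (fun j : Fin k => V j) (fun j : Fin k => W j) with hP
  let ee := Fintype.equivFin P
  have hPne : Nonempty P := by
    have h0 := g.card_lev 0 (Nat.zero_le _)
    have h1 : Rr d m 0 = 1 := by simp [Rr]
    rw [h1, one_mul] at h0
    have h2 : 0 < (univ.filter fun v => g.lev v = 0).card := by
      have : ((univ.filter fun v => g.lev v = 0).card : ℝ) = b := h0
      have h3 : (univ.filter fun v => g.lev v = 0).card = b := by exact_mod_cast this
      omega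
    obtain ⟨v, _⟩ := Finset.card_pos.1 h2
    exact ⟨v⟩
  have hEE := fun (S : Type) (i1 : Fintype S) (i2 : DecidableEq S) (t : S → ℝ) =>
    hEEX hRKT hRTH P k b d m J Q B g S t p C K1 r δ hp hp2 hd1 (fun l _ => hBd l) hC0 (by linarith) hδ0 (by linarith) hCδ
  have hx : OpLe p (xm g p C) r := (hEE Unit inferInstance inferInstance (fun _ => 1) (fun _ => by norm_num)).1
  refine ⟨Fintype.card P, (xm g p C).submatrix ee.symm ee.symm, Fintype.card_pos, hre _ _ ee.symm _ _ hx, ?_⟩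
  intro S _ _ t ht hex hS Y Z hY hZ hidem hone
  let E2 : S × P ≃ S × Fin (Fintype.card P) := Equiv.prodCongr (Equiv.refl S) ee
  set Y' : Matrix (S × P) (S × P) ℂ := Y.submatrix E2 E2 with hY'
  set Z' : Matrix (S × P) (S × P) ℂ := Z.submatrix E2 E2 with hZ'
  have hblk : (blk t ((xm g p C).submatrix ee.symm ee.symm)).submatrix E2 E2 = blk t (xm g p C) := by
    ext i j
    simp [blk, E2]
  have hYc : OpLe p Y' K1 := hmono _ _ _ _ _ (abs_nonneg K) (le_max_left _ _) (habs _ _ _ _ (hre _ _ E2 _ _ hY))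
  have hZc : OpLe p Z' K1 := hmono _ _ _ _ _ (abs_nonneg K) (le_max_left _ _) (habs _ _ _ _ (hre _ _ E2 _ _ hZ))
  have hmul : (blk t ((xm g p C).submatrix ee.symm ee.symm) * Y).submatrix E2 E2 = blk t (xm g p C) * Y' := by
    rw [← hblk, hY', Matrix.submatrix_mul_equiv]
  have hid' : (blk t (xm g p C) * Y') * (blk t (xm g p C) * Y') = blk t (xm g p C) * Y' := by
    rw [← hmul, Matrix.submatrix_mul_equiv, hidem]
  have hone' : 1 - blk t (xm g p C) * Y' = (1 - blk t (xm g p C)) * Z' := by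
    rw [← hmul]
    have h1 : (1 : Matrix (S × P) (S × P) ℂ) = (1 : Matrix _ _ ℂ).submatrix E2 E2 := by
      rw [Matrix.submatrix_one_equiv]
    have hs : ∀ A B : Matrix (S × Fin (Fintype.card P)) (S × Fin (Fintype.card P)) ℂ,
        A.submatrix E2 E2 - B.submatrix E2 E2 = (A - B).submatrix E2 E2 := fun A B => rfl
    rw [h1, hs, hone, ← hblk, hs, hZ', Matrix.submatrix_mul_equiv]
  obtain ⟨-, hblkr, hrest⟩ := hEE S inferInstance inferInstance t ht
  obtain ⟨hflat, hrank⟩ := hrest Y' hYc hid'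
  have hinv := inv_zero hADJ hGNP hDCP hBON hPEL hS1X hS3X hS5X hSCX hCAX hTRH hSFX hBAX g t p r C K1 lam hp hp2 eps z tau
    ha hc s0 hpar hk hlam1 hC0 (by linarith) (fun l _ => by
      rw [hBd l]
      have : (0 : ℝ) ≤ d l := Nat.cast_nonneg _
      nlinarith) _ hrank hflat hS
  exact hFNX hGNP hADJ P k b d m J Q B g S t p r C K1 lam eps z tau ha hc s0 Y' Z' _ _ _ hp hp2 hb1 hk hlam1 hlamC hCr
    hK11 hpar hex (by norm_num) hblkr hYc hZc hone' hid' hinv

/-- the case `p = 1` (project XR) -/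
theorem ftp1 (hOPX : StOpx) (hFT : XR.StFT) : StFTp 1 := by
  intro r hr K
  obtain ⟨-, -, -, -, -, habs, -, hcol⟩ := hOPX 1 le_rfl
  obtain ⟨N, x0, hN, hx0, hft⟩ := hFT r hr |K|
  refine ⟨N, x0, hN, (hcol _ x0 r (by linarith)).2 hx0, ?_⟩
  intro S _ _ t ht hex hS Y Z hY hZ hid hone
  exact hft S t ht hex hS Y Z ((hcol _ Y _ (abs_nonneg K)).1 (habs _ _ _ _ hY))
    ((hcol _ Z _ (abs_nonneg K)).1 (habs _ _ _ _ hZ)) hid hone

/-- the exchange property of an element is left-right symmetric: explicit formula -/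
theorem lr_id {R : Type} [Ring R] (a s t E1 E2 : R) (h1 : s * (1 - a) = E1) (h2 : t * a = E2) (h12 : E1 + E2 = 1)
    (hE : E2 * E2 = E2) (hs : E1 * s = s) (ht : E2 * t = t) :
    (a * (1 + (1 - a) * (t - s))) * (a * (1 + (1 - a) * (t - s))) = a * (1 + (1 - a) * (t - s)) ∧
      1 - a * (1 + (1 - a) * (t - s)) = (1 - a) * (1 - a * (t - s)) := by
  have hE1 : E1 = 1 - E2 := eq_sub_of_add_eq h12
  have h3 : E1 * t = 0 := by rw [hE1, sub_mul, one_mul, ht, sub_self]
  set c := t - s with hc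
  have hca : c * a = 1 - s := by
    have e1 : s * a = s - E1 := by rw [← h1]; noncomm_ring
    rw [hc, sub_mul, h2, e1, hE1]; abel
  have hcb : c * (1 - a) = t - 1 := by
    have e1 : t * (1 - a) = t - E2 := by rw [mul_sub, mul_one, h2]
    rw [hc, sub_mul, e1, h1, hE1]; abel
  refine ⟨?_, ?_⟩
  · have e0 : a * (1 + (1 - a) * c) = a + a * (1 - a) * c := by noncomm_ring
    rw [e0]
    have e1 : (a + a * (1 - a) * c) * (a + a * (1 - a) * c) =
        a * a + a * (a * (1 - a)) * c + a * (1 - a) * (c * a) + a * (1 - a) * (c * a) * ((1 - a) * c) := by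
      noncomm_ring
    rw [e1, hca]
    have e2 : a * (1 - a) * (1 - s) * ((1 - a) * c) = a * (1 - a) * ((1 - a) * c - (s * (1 - a)) * c) := by
      noncomm_ring
    have e3 : E1 * c = - s := by rw [hc, mul_sub, h3, hs]; abel
    rw [e2, h1, e3]
    noncomm_ring
  · noncomm_ring

/-- the case `p > 2` by duality -/
theorem ftp_dual (hOPX : StOpx) (hDUA : StDua) (p p' : ℝ) (hp : 1 < p) (hp' : 1 < p') (hpp : 1 / p + 1 / p' = 1)
    (h : StFTp p') : StFTp p := by
  intro r hr K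
  obtain ⟨hadd, hmul, hone1, hneg, hmono, habs, hre, -⟩ := hOPX p' hp'.le
  obtain ⟨-, -, -, -, -, habs', -, -⟩ := hOPX p hp.le
  have hpp' : 1 / p' + 1 / p = 1 := by rw [add_comm]; exact hpp
  set K1 : ℝ := |K| with hK1
  have hK0 : 0 ≤ K1 := abs_nonneg K
  set T : ℝ := K1 * r * K1 + (1 + K1 * r) * K1 with hT
  have hT0 : 0 ≤ T := by positivity
  obtain ⟨N, x0, hN, hx0, hft⟩ := h r hr (1 + (1 + r) * T)
  refine ⟨N, x0.transpose, hN, hDUA _ _ p' p x0 r hp' hp hpp' (by linarith) hx0, ?_⟩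
  intro S _ _ t ht hex hS Y Z hY hZ hid hone
  set X : Matrix (S × Fin N) (S × Fin N) ℂ := blk t x0 with hX
  have hXt : blk t x0.transpose = X.transpose := by
    ext i j
    simp only [hX, blk, Matrix.transpose_apply]
    by_cases hij : i.1 = j.1
    · rw [if_pos hij, if_pos hij.symm, hij]
    · rw [if_neg hij, if_neg (fun h => hij h.symm)]
  rw [hXt] at hid hone
  set Y' := Y.transpose with hY'
  set Z' := Z.transpose with hZ'
  have hYn : OpLe p' Y' K1 := hDUA _ _ p p' Y K1 hp hp' hpp hK0 (habs' _ _ _ _ hY)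
  have hZn : OpLe p' Z' K1 := hDUA _ _ p p' Z K1 hp hp' hpp hK0 (habs' _ _ _ _ hZ)
  -- the norm of X
  have hXn : OpLe p' X r := by
    intro v
    have hp0 : 0 < p' := by linarith
    have e1 : ∀ s : S, np p' (fun a => X.mulVec v (s, a)) ≤ r ^ p' * np p' (fun a => v (s, a)) := by
      intro s
      have e2 : (fun a => X.mulVec v (s, a)) = (t s : ℂ) • x0.mulVec (fun a => v (s, a)) := by
        funext a
        simp only [hX, Matrix.mulVec, dotProduct, blk, Pi.smul_apply, smul_eq_mul]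
        rw [Fintype.sum_prod_type, Finset.sum_eq_single s]
        · rw [Finset.mul_sum]
          exact Finset.sum_congr rfl fun b _ => by simp; ring
        · intro s' _ hs'
          exact Finset.sum_eq_zero fun b _ => by
            rw [if_neg (fun h : s = s' => hs' h.symm), zero_mul]
        · intro hs; exact absurd (Finset.mem_univ _) hs
      rw [e2, np_smul, Complex.norm_real, Real.norm_of_nonneg (ht s).1]
      have e3 : t s ^ p' ≤ 1 := Real.rpow_le_one (ht s).1 (ht s).2 hp0.le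
      calc t s ^ p' * np p' (x0.mulVec fun a => v (s, a)) ≤ 1 * np p' (x0.mulVec fun a => v (s, a)) :=
            mul_le_mul_of_nonneg_right e3 (np_nonneg _ _)
        _ ≤ _ := by rw [one_mul]; exact hx0 _
    calc np p' (X.mulVec v) = ∑ s, np p' (fun a => X.mulVec v (s, a)) := by
          unfold np; rw [Fintype.sum_prod_type]
      _ ≤ ∑ s, r ^ p' * np p' (fun a => v (s, a)) := Finset.sum_le_sum fun s _ => e1 s
      _ = r ^ p' * np p' v := by
          rw [← Finset.mul_sum]; unfold np; rw [Fintype.sum_prod_type]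
  -- the left data
  have hid' : (Y' * X) * (Y' * X) = Y' * X := by
    have := congrArg Matrix.transpose hid
    simpa [Matrix.transpose_mul, Matrix.transpose_transpose, hY'] using this
  have hone' : 1 - Y' * X = Z' * (1 - X) := by
    have := congrArg Matrix.transpose hone
    simpa [Matrix.transpose_mul, Matrix.transpose_transpose, hY', hZ', Matrix.transpose_sub] using this
  set E2 := Y' * X with hE2
  set E1 := Z' * (1 - X) with hE1
  have h12 : E1 + E2 = 1 := by rw [← hone']; abel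
  set tt := E2 * Y' with htt
  set ss := E1 * Z' with hss
  have hE1i : E1 * E1 = E1 := by
    have e1 : E1 = 1 - E2 := eq_sub_of_add_eq h12
    rw [e1, sub_mul, mul_sub, mul_sub, hid']; simp
  obtain ⟨g1, g2⟩ := lr_id X ss tt E1 E2 (by rw [hss, mul_assoc, ← hE1, hE1i]) (by rw [htt, mul_assoc, ← hE2, hid'])
    h12 hid' (by rw [hss, ← mul_assoc, hE1i]) (by rw [htt, ← mul_assoc, hid'])
  have hr0 : 0 ≤ r := by linarith
  have nE2 : OpLe p' E2 (K1 * r) := hmul _ _ _ _ _ _ _ hK0 hr0 hYn hXn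
  have nE1 : OpLe p' E1 (1 + K1 * r) := by
    have e1 : E1 = 1 + -E2 := by rw [← sub_eq_add_neg]; exact eq_sub_of_add_eq h12
    rw [e1]
    exact hadd _ _ _ _ _ _ zero_le_one (by positivity) (hone1 _) (hneg _ _ _ _ nE2)
  have ntt : OpLe p' tt (K1 * r * K1) := hmul _ _ _ _ _ _ _ (by positivity) hK0 nE2 hYn
  have nss : OpLe p' ss ((1 + K1 * r) * K1) := hmul _ _ _ _ _ _ _ (by positivity) hK0 nE1 hZn
  have nts : OpLe p' (tt - ss) T := by
    rw [sub_eq_add_neg]
    exact hadd _ _ _ _ _ _ (by positivity) (by positivity) ntt (hneg _ _ _ _ nss)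
  have n1X : OpLe p' (1 - X) (1 + r) := by
    rw [sub_eq_add_neg]
    exact hadd _ _ _ _ _ _ zero_le_one hr0 (hone1 _) (hneg _ _ _ _ hXn)
  have nY : OpLe p' (1 + (1 - X) * (tt - ss)) (1 + (1 + r) * T) :=
    hadd _ _ _ _ _ _ zero_le_one (by positivity) (hone1 _) (hmul _ _ _ _ _ _ _ (by positivity) hT0 n1X nts)
  have nZ : OpLe p' (1 - X * (tt - ss)) (1 + (1 + r) * T) := by
    have e1 : OpLe p' (1 - X * (tt - ss)) (1 + r * T) := by
      rw [sub_eq_add_neg]
      exact hadd _ _ _ _ _ _ zero_le_one (by positivity) (hone1 _)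
        (hneg _ _ _ _ (hmul _ _ _ _ _ _ _ hr0 hT0 hXn nts))
    refine hmono _ _ _ _ _ (by positivity) ?_ e1
    nlinarith
  exact hft S t ht hex hS _ _ nY nZ g1 g2

/-- the finite theorem for all `p ≠ 2` -/
theorem ftp_all (hOPX : StOpx) (hDUA : StDua) (h1 : StFTp 1) (h12 : ∀ p : ℝ, 1 < p → p < 2 → StFTp p) (p : ℝ)
    (hp : 1 ≤ p) (hp2 : p ≠ 2) : StFTp p := by
  rcases hp.eq_or_lt with rfl | hp1
  · exact h1
  rcases lt_or_gt_of_ne hp2 with h | h
  · exact h12 p hp1 h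
  · have hp1' : 0 < p - 1 := by linarith
    refine ftp_dual hOPX hDUA p (p / (p - 1)) hp1 ?_ ?_ (h12 _ ?_ ?_)
    · rw [lt_div_iff₀ hp1']; linarith
    · field_simp; ring
    · rw [lt_div_iff₀ hp1']; linarith
    · rw [div_lt_iff₀ hp1']; linarith

end Pool.Agent.Helper63.XP
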