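import Pool.Agent.Helper63.XP.Defs
import Pool.Agent.Helper63.XR.StA

/-!
# Project XP: statements, part A (the finite theorem, `1 < p < 2`)

Notation in the proofs: `s = 1 - 1/p`, `D = d^(1/p - 1) = d^(-s)`.  Many modules are close to modules of project XR (the case `p = 1`),
named in the docstrings; copy and adapt them.
-/

set_option autoImplicit false

namespace Pool.Agent.Helper63.XP

open Finset
open Pool.Agent.Helper63.XR (gen blk wt StTrh StRkt StBon)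

/-! ### linear algebra and combinatorics -/

/-- CAX (few functionals are captured; the complex form of `XR.StCap`, see `M_CAP` of helper71).

Proof. `T` empty: trivial.  Let `c_t`, `|c_t| = 1`, be such that `c_t * pc (ψ t) (f t) = ‖pc (ψ t) (f t)‖`, and
`M t t' = c_{t'} pc (ψ t) (f t')`, a `T × T` matrix.  `M = Ψ * F` with `Ψ t j = ψ t j`, `F j t' = c_{t'} f t' j`, and `F = E * F`, so
`rank M ≤ rank F ≤ rank E ≤ ρ`.  The trace of `M` is real and `≥ ε |T|`; `∑_{t,t'} ‖M t t'‖² ≤ |T| L²`.  By StTrh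
`ε² |T|² ≤ ρ |T| L²`. -/
def StCax : Prop :=
  StTrh → ∀ (J T : Type) [Fintype J] [DecidableEq J] [Fintype T] [DecidableEq T] (E : Matrix J J ℂ) (ρ L ε : ℝ)
    (ψ : T → J → ℂ) (f : T → J → ℂ), (E.rank : ℝ) ≤ ρ → 0 < ε → (∀ t, E.mulVec (f t) = f t) →
    (∀ t, ε ≤ ‖pc (ψ t) (f t)‖) → (∀ t', ∑ t, ‖pc (ψ t) (f t')‖ ^ 2 ≤ L ^ 2) →
    (Fintype.card T : ℝ) * ε ^ 2 ≤ ρ * L ^ 2

/-- PEL (peeling, and a simple Bonferroni inequality).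

Proof of the first part.  Among the pairs `(T', U')`, `T' ⊆ T0`, `U' ⊆ U0`, with `|U'| + |T'| J < e(T', U') := ∑_(t∈T') |A t ∩ U'|` take one with
`|T'| + |U'|` minimal (strong induction on `|T0| + |U0|`).  `T'` is nonempty since `e > 0`.  If some `t ∈ T'` had `|A t ∩ U'| < J`, then removing
it lowers `e` by less than `J` and `|T'| J` by `J`: a smaller pair, contradiction.  If some `u ∈ U'` is in at most one `A t`, `t ∈ T'`,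
then removing it lowers `e` by at most one and `|U'|` by one: contradiction.

Proof of the second part.  `∑_(t∈T1) F t ≤ ∑_(t∈T1) ∑_(u∈G t) y u = ∑_u N(u) y u`, `N(u) = #{t ∈ T1 : u ∈ G t}`, and `N ≤ 1 + N(N-1)`; so the sum is
`≤ ∑_u y u + ∑_(t≠t'∈T1) ∑_(u ∈ G t ∩ G t') y u ≤ κ + |T1|² δ ≤ κ + 1`. -/
def StPel : Prop :=
  (∀ (T U : Type) [DecidableEq T] [DecidableEq U] (A : T → Finset U) (T0 : Finset T) (U0 : Finset U) (J : ℕ),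
    U0.card + T0.card * J < ∑ t ∈ T0, (A t ∩ U0).card →
    ∃ T' ⊆ T0, ∃ U' ⊆ U0, T'.Nonempty ∧ (∀ t ∈ T', J ≤ (A t ∩ U').card) ∧
      ∀ u ∈ U', 2 ≤ (T'.filter fun t => u ∈ A t).card) ∧
  (∀ (U T : Type) [Fintype U] [DecidableEq U] [DecidableEq T] (y : U → ℝ) (G : T → Finset U) (κ δ : ℝ)
    (T1 : Finset T) (F : T → ℝ), (∀ u, 0 ≤ y u) → ∑ u, y u ≤ κ → (∀ t ∈ T1, ∀ u ∈ G t, y u ≤ δ) → 0 ≤ δ →
    (∀ t ∈ T1, ∀ t' ∈ T1, t ≠ t' → (G t ∩ G t').card ≤ 1) → (∀ t ∈ T1, F t ≤ ∑ u ∈ G t, y u) →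
    (T1.card : ℝ) ^ 2 * δ ≤ 1 → ∑ t ∈ T1, F t ≤ κ + 1)

/-- DCP (decomposition step).

Proof. `D = d^(1/p-1)`, `D^p = d^(1-p)`, `D² = d^(2/p-2)`, `D ≤ 1`.  `‖y2 u‖ ≤ ζ`, so `‖y1 u‖ ≤ ε + ζ ≤ 2ε` on `U1 = ⋃ G t`.  Split `y1 1_(U1) = ya + yb + yc`:
`ha < ‖y1‖`, `hc < ‖y1‖ ≤ ha`, `‖y1‖ ≤ hc`, and `a_t = ∑_(u∈G t) σ ya`, `b_t`, `c_t` similarly.
(A) `∑_t ‖a_t‖² ≤ m ∑‖ya‖² + (∑‖ya‖)²` (expand the square; for `u ≠ u'` at most one `t` has `u, u' ∈ G t`), `∑‖ya‖² ≤ (2ε)^(2-p) κ`,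
`∑‖ya‖ ≤ ha^(1-p) κ` (for `x > ha`: `x = x^p x^(1-p) ≤ x^p ha^(1-p)`).
(C) `∑_t ‖c_t‖² ≤ B ∑‖yc‖² ≤ B hc^(2-p) κ`.
(B) `Ub = {u ∈ U1 : hc < ‖y1 u‖ ≤ ha}`, `|Ub| ≤ κ hc^(-p) ≤ Q`, `j_t = |G t ∩ Ub|`, `‖b_t‖ ≤ ha j_t`, `∑_t j_t ≤ m |Ub|`.  `TJ = {t : 2J ≤ j_t}`.
Off `TJ`: `∑ ‖b_t‖² ≤ ha² (2J) ∑ j_t ≤ 2 J m κ ha² hc^(-p)`.  On `TJ`: `e = ∑_(t∈TJ) j_t ≤ 2 |Ub|`: otherwise `|Ub| + |TJ| J < e` (as
`|TJ| J ≤ e/2`), and StPel gives a core `T' ⊆ TJ, U' ⊆ Ub` with `Q < |U'| ≤ |Ub| ≤ Q`.  Further `(w D ‖b_t‖)^p ≤ D^p d^(p-1) ∑_(G t ∩ Ub) ‖y1‖^p =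
∑_(G t ∩ Ub) ‖y1‖^p ≤ ha^p j_t` (`Real.rpow_sum_le_const_mul_sum_rpow`, `|G t| ≤ d`).
`T1 = {t : τ ≤ w_t D ‖b_t‖}`.  StBon with `F t = (w_t D ‖b_t‖)^p`, `y = ‖yb‖^p ≤ (2ε)^p`, `τ^p` in place of `τ`: `|T1| < s0`.  `p_t = w_t D ∑_(G t) σ y1`,
`‖p_t‖^p ≤ ∑_(G t) ‖y1‖^p`; the second part of StPel (`y = ‖y1 1_(U1)‖^p`, `δ = (2ε)^p`): `∑_(T1) ‖p_t‖^p ≤ κ + 1`.  `y1' = p 1_(T1)`,
`y2' = p 1_(T1^c) + n`, `n_t = w_t D ∑_(G t) σ y2`.  `∑_(t∉T1) ‖p_t‖² ≤ 3 D² ∑‖a‖² + 3 D² ∑‖c‖² + 3 ∑_(t∉T1) (w D ‖b_t‖)²`, where for `t ∈ TJ \ T1`: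
`(w D ‖b_t‖)² ≤ τ^(2-p) (w D ‖b_t‖)^p ≤ τ^(2-p) ha^p j_t`, in total `≤ τ^(2-p) ha^p 2 κ hc^(-p)`.  By `ins` the sum is `≤ (z/2)²`.
`∑‖n_t‖² ≤ D² ∑_t |G t| ∑_(G t) ‖y2‖² ≤ D² d m ζ² ≤ (z/2)²`.  `∑‖y2'‖² ≤ 2 (z/2)² + 2 (z/2)² = z²`. -/
def StDcp : Prop :=
  StBon → StPel → ∀ (U T : Type) [Fintype U] [DecidableEq U] [Fintype T] [DecidableEq T] (p : ℝ) (G : T → Finset U)
    (σ : U → T → ℂ) (w : T → ℝ) (y1 y2 : U → ℂ) (κ ζ ε z B ha hc τ : ℝ) (d m s0 J Q : ℕ), 1 < p → p < 2 → 1 ≤ d →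
    DecC p κ ζ ε z B ha hc τ d m s0 J Q → 0 ≤ κ → 0 ≤ B → (∀ u t, ‖σ u t‖ ≤ 1) → (∀ t, 0 ≤ w t ∧ w t ≤ 1) →
    (∀ t, (G t).card ≤ d) → (∀ u, (univ.filter fun t => u ∈ G t).card ≤ m) →
    (∀ t t', t ≠ t' → (G t ∩ G t').card ≤ 1) →
    (∀ y : U → ℂ, ∑ t, ‖∑ u ∈ G t, σ u t * y u‖ ^ 2 ≤ B * ∑ u, ‖y u‖ ^ 2) →
    (∀ (T' : Finset T) (U' : Finset U), T'.Nonempty → (∀ t ∈ T', J ≤ (G t ∩ U').card) →
      (∀ u ∈ U', 2 ≤ (T'.filter fun t => u ∈ G t).card) → Q < U'.card) →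
    ∑ u, ‖y1 u‖ ^ p ≤ κ → ∑ u, ‖y2 u‖ ^ 2 ≤ ζ ^ 2 → 0 ≤ ζ → ζ ≤ ε → (∀ t, ∀ u ∈ G t, ‖y1 u + y2 u‖ ≤ ε) →
    ∃ y1' y2' : T → ℂ, (∀ t, ((w t * (d : ℝ) ^ (1 / p - 1) : ℝ) : ℂ) * ∑ u ∈ G t, σ u t * (y1 u + y2 u) =
      y1' t + y2' t) ∧ ∑ t, ‖y1' t‖ ^ p ≤ κ + 1 ∧ ∑ t, ‖y2' t‖ ^ 2 ≤ z ^ 2

/-- RTH (Riesz-Thorin between `l^1` and `l^2`).

Proof. `θ = 2 - 2/p ∈ (0,1)`, `q = p/(p-1)`, `s = 1 - 1/p = 1/q = θ/2`.  It suffices: `‖∑_(i,j) u_i M_ij v_j‖ ≤ a^(1-θ) (√b)^θ` for `∑|v|^p = 1`,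
`∑|u|^q = 1` (then choose `u_i = conj(sgn (M v)_i) ‖(M v)_i‖^(p-1)`, normalised; `(a^(1-θ) b^(θ/2))^p = a^(2-p) b^(p-1)`).  For complex `ω` put
`v_ω(j) = ‖v_j‖^(p (1 - ω/2)) sgn v_j` (zero if `v_j = 0`), `u_ω(i) = ‖u_i‖^(q ω / 2) sgn u_i` (zero if `u_i = 0`), `sgn x = x/‖x‖`, and
`f(ω) = ∑ u_ω(i) M_ij v_ω(j)`, entire and bounded on the strip.  `Re ω = 0`: `∑_j ‖v_ω(j)‖ = 1`, `‖u_ω(i)‖ ≤ 1`, so `‖f‖ ≤ a`.  `Re ω = 1`:
`∑‖v_ω‖² = 1`, `∑‖u_ω‖² = 1`, so `‖f‖ ≤ √b`.  `f(θ) = ∑ u_i M_ij v_j` (`p(1-θ/2) = 1`, `qθ/2 = 1`).  Hadamard's three lines theorem is in Mathlib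
(`Complex.HadamardThreeLines.norm_le_interp_of_mem_verticalClosedStrip`, `Mathlib/Analysis/Complex/Hadamard.lean`). -/
def StRth : Prop :=
  ∀ (m n : Type) [Fintype m] [Fintype n] (p : ℝ) (M : Matrix m n ℂ) (a b : ℝ), 1 < p → p < 2 → 0 < a → 0 < b →
    (∀ j, ∑ i, ‖M i j‖ ≤ a) → (∀ v, ∑ i, ‖M.mulVec v i‖ ^ 2 ≤ b * ∑ j, ‖v j‖ ^ 2) →
    ∀ v, np p (M.mulVec v) ≤ a ^ (2 - p) * b ^ (p - 1) * np p v

/-- DUA (duality).

Proof. For `w : m → ℂ` let `g = Mᵀ w`, `v_j = conj(sgn g_j) ‖g_j‖^(p'-1)`; `∑ g_j v_j = np p' g`, `‖v_j‖^p = ‖g_j‖^(p')`, `np p v = np p' g`;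
`∑ g_j v_j = ∑ w_i (M v)_i ≤ (np p' w)^(1/p') (np p (M v))^(1/p) ≤ (np p' w)^(1/p') K (np p' g)^(1/p)` (Hölder), so
`(np p' g)^(1/p') ≤ K (np p' w)^(1/p')`. -/
def StDua : Prop :=
  ∀ (m n : Type) [Fintype m] [Fintype n] (p p' : ℝ) (M : Matrix m n ℂ) (K : ℝ), 1 < p → 1 < p' → 1 / p + 1 / p' = 1 →
    0 ≤ K → OpLe p M K → OpLe p' M.transpose K

/-! ### the graphs -/

/-- COR (a core of the moment curve graph is large).

`t = (i, s)` is adjacent to `u = (x, R)` if `R = s + i v(x)`, `v(x) = (1, x, ..., x^(2r-1))`.  Fact (Vandermonde): for at most `2r` different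
`x` the vectors `v(x)` are linearly independent; so if `∑_(x∈A) α_x v(x) = ∑_(x∈A') β_x v(x)` with all `α_x, β_x ≠ 0` and `|A ∪ A'| ≤ 2r` then
`A = A'`, `α = β`.
Proof. Fix `t0 = (i0, s0) ∈ T`.  For `n ≤ r` let `T_n` be the set of the `t = (i, s) ∈ T` for which `s - s0 = ∑_(x∈A) δ_x v(x)` with some `A`, `|A| = n`,
and all `δ_x ≠ 0`; `A = A_t`, `δ` are unique.  `t0 ∈ T_0`.  Claim: `(n+1) |T_(n+1)| ≥ (J - n) |T_n|` for `n + 1 ≤ r`.  Let `t ∈ T_n`; it is adjacent to at least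
`J` elements `u = (x, R)` of `U`, with different `x`, so to at least `J - n` ones with `x ∉ A_t`; each of them has a second neighbour
`t' = (i', s') ∈ T`, `t' ≠ t`; `s' = s + (i - i') v(x)`, `i' ≠ i`; so `t' ∈ T_(n+1)`, `A_(t') = A_t ∪ {x}`; different `x` give different `t'`.  Conversely
`t' ∈ T_(n+1)` arises in this way from at most `n + 1` elements `t`: `x ∈ A_(t')`, `A_t = A_(t') \ {x}` and `i - i'` is the
coefficient of `v(x)` in `s' - s0`, so `x` determines `i`, `s = s' - (i - i') v(x)`.  Hence `n! |T_n| ≥ (J - n)^n ≥ (J - r)^n` and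
`(r-1)! |T_(r-1)| ≥ (J - r)^(r-1)`.  Every `t ∈ T_(r-1)` has at least `J - r + 1 ≥ J - r` neighbours `u = (x, R) ∈ U` with `x ∉ A_t`, and `u` arises from
only one `t`: if `t = (i, R - i v(x))` and `t' = (i', R - i' v(x))` both work, `i ≠ i'`, then
`(i' - i) v(x) = (s_t - s0) - (s_(t') - s0)` has `v(x)` outside `A_t ∪ A_(t')`, at most `2(r-1) + 1` points, contradiction.  So
`r! |U| ≥ (r-1)! |U| ≥ (J - r)^r > r! Q`. -/
def StCor : Prop :=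
  ∀ (F : Type) [Field F] [DecidableEq F] (r J Q : ℕ) (T U : Finset (F × (Fin (2 * r) → F))), 1 ≤ r → r ≤ J →
    r.factorial * Q < (J - r) ^ r → T.Nonempty →
    (∀ t ∈ T, J ≤ (U.filter fun u => u.2 = t.2 + t.1 • vc (2 * r) u.1).card) →
    (∀ u ∈ U, 2 ≤ (T.filter fun t => u.2 = t.2 + t.1 • vc (2 * r) u.1).card) → Q < U.card

/-- FPL (the `l^2` norm of the moment curve graph with phases).

Proof. `ψ` is a primitive additive character of `F`, `q = |F|`.  For `κ : Fin w → F` let `Ψ_κ(R) = ψ(∑ κ_a R_a)`; orthogonality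
`∑_κ Ψ_κ(R) = q^w [R = 0]` (product of one-dimensional sums, `AddChar.sum_mulShift` or `AddChar.IsPrimitive`), so Plancherel:
`∑_κ |∑_R f(R) Ψ_κ(-R)|² = q^w ∑_R |f(R)|²`.  For fixed `x` let `A_x(R) = ∑_(i∈I) ψ(-i H(x)) g(i, R - i v(x))`; its transform is
`∑_i ψ(-i (H(x) + P_κ(x))) a_i`, `a_i = ĝ(i, κ)`, `P_κ(x) = ∑ κ_a x^a`.  So it suffices that for all `κ` and all `a : F → ℂ` supported on `I`:
`∑_x |â(g(x))|² ≤ c ∑_i |a_i|²`, `g(x) = H(x) + P_κ(x)`, `â(y) = ∑_(i∈I) ψ(-i y) a_i`.  Let `I⊥ = {y : ψ(i y) = 1 for i ∈ I}`, a subgroup; `â` is constant on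
its cosets; `|I⊥| |I| = q` (as `∑_y |∑_(i∈I) ψ(i y)|²` is `q |I|` by orthogonality and `|I|² |I⊥|` since `∑_(i∈I) ψ(iy)` is `|I|` or `0`);
`∑_(y∈F) |â(y)|² = q ∑|a_i|²` (orthogonality), so `∑_(cosets) |â|² = |I| ∑|a_i|²`.  By hypothesis every coset contains at most
`c / |I|` of the points `g(x)`, `x ∈ F`.  (Without cosets: `∑_x |â(g(x))|² = ∑_x |I⊥|⁻¹ ∑_(y : y - g(x) ∈ I⊥) |â(y)|² = |I⊥|⁻¹ ∑_y |â(y)|² #{x : g(x) - y ∈ I⊥}
≤ |I⊥|⁻¹ (c/|I|) q ∑|a_i|² = c ∑|a_i|²`.) -/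
def StFpl : Prop :=
  ∀ (F : Type) [Field F] [Fintype F] [DecidableEq F] (ψ : AddChar F ℂ) (w : ℕ) (I : AddSubgroup F) (H : F → F) (c : ℝ),
    ψ.IsPrimitive →
    (∀ (κ : Fin w → F) (y : F), (Nat.card {x : F // ∀ i ∈ I, ψ (i * (H x + ∑ a, κ a * x ^ (a : ℕ) - y)) = 1} : ℝ) *
      Nat.card I ≤ c) →
    ∀ g : F × (Fin w → F) → ℂ, (∀ v, v.1 ∉ I → g v = 0) →
      ∑ u : F × (Fin w → F), ‖∑ i : F, ψ (-(i * H u.1)) * g (i, u.2 - i • vc w u.1)‖ ^ 2 ≤ c * ∑ v, ‖g v‖ ^ 2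

/-- RNH (a random function is balanced against all polynomials of degree less than `w`).

Proof. `q = |F| = N1 m`.  Let `ζ = 1 + δ`, `c0 = (1 + δ) log (1 + δ) - δ > 0`.  Fix `κ, y`; for `H : F → F` let `n(H) = #{x : H x + P_κ(x) - y ∈ Z}`.
`∑_H ζ^(n(H)) = ∏_x (q + (ζ - 1) N1) = q^q (1 + δ/m)^q ≤ q^q exp(δ N1)` (`Finset.prod_univ_sum`/`Fintype.piFinset`; for every `x` exactly `N1` of the
values `H x` are in the set).  So the number of `H` with `n(H) > (1 + δ) N1` is at most `q^q exp(δ N1 - (1 + δ) N1 log(1 + δ)) = q^q exp(-c0 N1)`.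
Sum over the `q^(w+1)` pairs `(κ, y)`: less than `q^q` functions are bad. -/
def StRnh : Prop :=
  ∀ δ : ℝ, 0 < δ → ∃ c0 : ℝ, 0 < c0 ∧ ∀ (F : Type) [Field F] [Fintype F] [DecidableEq F] (w N1 m : ℕ) (Z : Finset F),
    Z.card = N1 → N1 * m = Fintype.card F → (Fintype.card F : ℝ) ^ (w + 1) * Real.exp (-c0 * N1) < 1 →
    ∃ H : F → F, ∀ (κ : Fin w → F) (y : F),
      ((univ.filter fun x : F => H x + ∑ a, κ a * x ^ (a : ℕ) - y ∈ Z).card : ℝ) ≤ (1 + δ) * N1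

/-- GDT (the one step graphs).

Proof. `F = GaloisField q0 e` (`q = q0^e` elements), `w = 2r`, `I` an additive subgroup of `F` with `m = q0^e'` elements (a
`ZMod q0`-subspace of dimension `e'`), `ψ` a primitive additive character with values in `ℂ` (`AddChar.FiniteField.primitiveChar...`, or any
nontrivial character, which is primitive).  `V = I × (Fin w → F)`, `W = F × (Fin w → F)`, `ch (i, s) = {(x, s + i • v(x)) : x ∈ F}`, `v = vc w`;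
`σ (x, R) (i, s) = ψ(-(i H(x)))`, `H` from StRnh with `Z = I⊥ = {y : ∀ i ∈ I, ψ(i y) = 1}`, `N1 = q0^(e-e')`, `m = q0^e'` (`|I⊥| |I| = q`, see StFpl); the condition
`q^(w+1) exp(-c0 q0^(e-e')) < 1` holds for large `q0`.  `card_ch`: `q`.  Parents of `(x, R)`: the `(i, R - i v(x))`, `i ∈ I`: `m`.  `share`: if `(i,s) ≠ (j,t)`
have the common children number `x ≠ x'` then `(i - j) v(x) = t - s = (i - j) v(x')`; `i = j` gives `s = t`; otherwise `v(x) = v(x')`, and `w ≥ 2` so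
`x = x'`.  `l2`: StFpl with `c = (1 + δ) q`.  `core`: StCor (`I ⊆ F`). -/
def StGdt : Prop :=
  StCor → StFpl → StRnh → ∀ (r e e' : ℕ) (δ : ℝ), 1 ≤ r → 1 ≤ e' → e' < e → 0 < δ → ∃ N0 : ℕ, ∀ q0 : ℕ, N0 ≤ q0 →
    q0.Prime → ∀ J Q : ℕ, r ≤ J → r.factorial * Q < (J - r) ^ r →
    ∃ (V W : Type) (_ : Fintype V) (_ : DecidableEq V) (_ : Fintype W) (_ : DecidableEq W),
      Nonempty (Stp V W (q0 ^ e) (q0 ^ e') ((q0 ^ e) ^ (2 * r)) J Q ((1 + δ) * (q0 : ℝ) ^ e))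

section product

variable {k : ℕ}

/-- PRA (the product graph: layers, numbers).

In an element `u : PT V W` the coordinates `j < plev u` are `inr`, the others `inl` (the pattern condition).  A child `c` of `u` differs from
`u` in one coordinate `j`, where `u_j = inl v`, `c_j = inr w`, `w ∈ ch v`; the patterns of `u` and `c` force `j = plev u`.
So `plev c = plev u + 1`, the number of children is `d j`, `j = plev u < k`, and the parents of `c` are given by the parents of the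
coordinate number `plev c - 1`.  The number of the elements with `plev u = l`: `∏_(j<l) |W j| ∏_(j≥l) |V j|
= ∏_(j<l) (d j * gg j) ∏_(j≥l) (m j * gg j)`, which is `b * Rr d m l` for `b = ∏_j m j * gg j`.  `share`: a common child of `u ≠ u'` determines that `plev u = plev u' = j`
and `u_i = u'_i` for `i ≠ j`, and its coordinate `j` is a common child of `u_j ≠ u'_j`. -/
def StPra : Prop :=
  ∀ (k : ℕ) (V W : Fin k → Type) [∀ j, Fintype (V j)] [∀ j, DecidableEq (V j)] [∀ j, Fintype (W j)]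
    [∀ j, DecidableEq (W j)] (d m gg J Q : ℕ → ℕ) (B : ℕ → ℝ)
    (st : ∀ j : Fin k, Stp (V j) (W j) (d j) (m j) (gg j) (J j) (Q j) (B j)), (∀ j, 1 ≤ m j) →
    (∀ u : PT V W, plev u ≤ k) ∧ (∀ u : PT V W, ∀ c ∈ pch (fun j => (st j).ch) u, plev c = plev u + 1) ∧
    (∀ l, l ≤ k → ((univ.filter fun v : PT V W => plev v = l).card : ℝ) =
      Rr d m l * ((∏ j : Fin k, m j * gg j : ℕ) : ℝ)) ∧
    (∀ u : PT V W, plev u < k → (pch (fun j => (st j).ch) u).card = d (plev u)) ∧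
    (∀ c : PT V W, (univ.filter fun v => c ∈ pch (fun j => (st j).ch) v).card ≤ m (plev c - 1)) ∧
    (∀ u v : PT V W, u ≠ v → (pch (fun j => (st j).ch) u ∩ pch (fun j => (st j).ch) v).card ≤ 1) ∧
    ∀ c v : PT V W, ‖pσ (fun j => (st j).σ) c v‖ = 1

/-- PRB (the product graph: descendants).

`v ∈ gen t n` iff `v` agrees with `t` outside the coordinates `l, ..., l + n - 1`, `l = plev t`, `l + n ≤ k`, and for these coordinates `t_j = inl a`,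
`v_j = inr w` with `w ∈ ch a` (induction on `n`, see StPra for the children).  `tree`: a common child of `u, v ∈ gen t n` determines the
coordinates `≠ l + n` of `u` and `v`, and `u_(l+n) = t_(l+n) = v_(l+n)`; so `u = v`.  `par1`: let `u ∉ gen t n`, `c ∈ ch u ∩ gen t (n+1)`: `plev u = l + n =: j`,
`c_j = inr w` with `w ∈ ch a`, `t_j = inl a`, and `w ∈ ch a'`, `u_j = inl a'`, and `u` agrees with `c` off `j`; if `a = a'` then `u ∈ gen t n`; so `a ≠ a'`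
and `w` is unique by `share`. -/
def StPrb : Prop :=
  ∀ (k : ℕ) (V W : Fin k → Type) [∀ j, Fintype (V j)] [∀ j, DecidableEq (V j)] [∀ j, Fintype (W j)]
    [∀ j, DecidableEq (W j)] (d m gg J Q : ℕ → ℕ) (B : ℕ → ℝ)
    (st : ∀ j : Fin k, Stp (V j) (W j) (d j) (m j) (gg j) (J j) (Q j) (B j)),
    (∀ (t : PT V W) n u v, u ∈ gen (pch fun j => (st j).ch) t n → v ∈ gen (pch fun j => (st j).ch) t n → u ≠ v →
      Disjoint (pch (fun j => (st j).ch) u) (pch (fun j => (st j).ch) v)) ∧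
    ∀ (t : PT V W) n u, u ∉ gen (pch fun j => (st j).ch) t n →
      (pch (fun j => (st j).ch) u ∩ gen (pch fun j => (st j).ch) t (n + 1)).card ≤ 1

/-- PRC (the product graph: `l^2` norm and cores).

Let `l < k`, `j = l` as an element of `Fin k`.  `l2`: only the `c` with `plev c = l + 1` matter (otherwise there is no `v` in the filter).  Group the
`c` (and the `v` of layer `l`) by the coordinates different from `j`: for a fixed choice of these coordinates (compatible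
with the pattern) the sum is `∑_(w : W j) ‖∑_(v : w ∈ ch v) σ w v y(..v..)‖² ≤ B ∑_(v : V j) ‖y(..v..)‖²` (the other factors of `pσ` are one,
since the other coordinates of `c` and `v` agree).  `core`: let `t0 ∈ T`, `T' = {v : V j | t0 with coordinate j replaced by inl v is in T}`,
`U' = {w : W j | t0 with coordinate j replaced by inr w is in U}`; the hypotheses of `(st j).core` hold for `T', U'` (`v0 ∈ T'` if `t0_j = inl v0`; the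
children of `(t0, v)` are the `(t0, w)`, `w ∈ ch v`; the parents of `(t0, w)` are the `(t0, v)`, `w ∈ ch v`), so `Q < |U'| ≤ |U|`. -/
def StPrc : Prop :=
  ∀ (k : ℕ) (V W : Fin k → Type) [∀ j, Fintype (V j)] [∀ j, DecidableEq (V j)] [∀ j, Fintype (W j)]
    [∀ j, DecidableEq (W j)] (d m gg J Q : ℕ → ℕ) (B : ℕ → ℝ)
    (st : ∀ j : Fin k, Stp (V j) (W j) (d j) (m j) (gg j) (J j) (Q j) (B j)),
    (∀ l, l < k → ∀ y : PT V W → ℂ,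
      ∑ c, ‖∑ v ∈ univ.filter (fun v => plev v = l ∧ c ∈ pch (fun j => (st j).ch) v),
        pσ (fun j => (st j).σ) c v * y v‖ ^ 2 ≤ B l * ∑ v, ‖y v‖ ^ 2) ∧
    ∀ l, l < k → ∀ T U : Finset (PT V W), T.Nonempty →
      (∀ t ∈ T, plev t = l ∧ J l ≤ (pch (fun j => (st j).ch) t ∩ U).card) →
      (∀ u ∈ U, 2 ≤ (T.filter fun t => u ∈ pch (fun j => (st j).ch) t).card) → Q l < U.card

end product

/-! ### parameters -/

/-- PA1 (one step of the parameters).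

Proof. `D0 = 2 - p ∈ (0,1)`.  Choose `r = ⌈2/D0⌉`, so `1/r ≤ D0/2`; `μ = e'/e` rational with `p - 1 < μ ≤ p - 1 + D0²/16`; put `η0 = μ - (p-1)`,
`e0 = (1 - μ)/2 - η0 = (D0 - 3 η0)/2`, `η1 = e0/4`, `η = η1 D0/4`, `e* = 3 D0/4`.  For large `q0` let `d = q0^e`, `m = q0^e' = d^μ` and
`ε = d^(-e0)`, `τ = d^(-η1)`, `s0 = ⌈(κ+2) d^(p η1)⌉`, `ha = d^(-(1-η)/p)`, `hc = d^(-(1+η)/p)`, `J = ⌈d^(e*)⌉`, `Q = ⌈κ d^(1+η)⌉`,
`ζ = min ε (z/(2 √(d m)))`.  Exponents (all the conditions follow for large `q0` from a negative exponent of `d`; `s = 1 - 1/p`, `2s = 2 - 2/p`):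
`sig`: `s0 τ^p ≥ κ + 2`.  `sig2`: `2 p η1 - p e0 < 0`.  `qq`: clear.  `ins`, five terms: (1) `-2s + μ - e0 (2-p) = -(p-1)D0/p + η0 - e0 D0 < 0`;
(2) `-2s + 2(p-1)(1-η)/p = -2 s η < 0`; (3) (`B = 2d`) `-2s + 1 - (1+η) D0/p = -η D0/p < 0`; (4) `-2s + e* + μ - 2(1-η)/p + 1 + η = e* - (1-μ) + η (1 + 2/p) < 0`
(`1 - μ ≥ D0 - D0²/16`, `η ≤ D0²/32`); (5) `-η1 D0 - (1-η) + (1+η) = 2η - η1 D0 < 0`.  `noi`: `d^(2/p-2) ≤ 1`, `d m ζ² ≤ z²/4`.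
`dm = d^(-1/p) m^(1-1/p)` has the exponent `-1/p + s μ = -D0 + s η0`, and `-D0 + s η0 + e0 < 0`.  `(d/m) dm`: exponent `1 - μ - 1/p + sμ = s - μ/p = -η0/p < 0`.
`ε² d/m`: exponent `-2 e0 + 1 - μ = 2 η0 > 0`.  `r! Q < (J - r)^r`: `1 + η < r e*` (`r e* ≥ 3/2`).
(`Filter.Tendsto`, `tendsto_rpow_neg_atTop`, for real `d → ∞` along `q0^e`.) -/
def StPa1 : Prop :=
  ∀ p : ℝ, 1 < p → p < 2 → ∃ r e e' : ℕ, 1 ≤ r ∧ 1 ≤ e' ∧ e' < e ∧ ∀ κ z c : ℝ, 1 ≤ κ → 0 < z → 0 < c → ∃ N : ℕ,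
    ∀ q0 : ℕ, N ≤ q0 → ∃ (J Q s0 : ℕ) (ε ζ τ ha hc : ℝ), r ≤ J ∧ r.factorial * Q < (J - r) ^ r ∧ 0 < ε ∧ ε ≤ 1 ∧
      0 < ζ ∧ ζ ≤ ε ∧ DecC p κ ζ ε z (2 * (q0 ^ e : ℕ)) ha hc τ (q0 ^ e) (q0 ^ e') s0 J Q ∧
      dm p (q0 ^ e) (q0 ^ e') ≤ c * ε ∧ dm p (q0 ^ e) (q0 ^ e') ≤ c ∧
      (((q0 ^ e : ℕ) : ℝ) / (q0 ^ e' : ℕ)) * dm p (q0 ^ e) (q0 ^ e') ≤ c ∧
      1 ≤ c * (ε ^ 2 * (((q0 ^ e : ℕ) : ℝ) / (q0 ^ e' : ℕ)))

/-- PA2 (existence of the parameters).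

Proof. `r, e, e'` from StPa1.  Choose `k ≥ 1` with the condition `last`.  `κ = k + 1`, `A0 = (k+1)(4 k C K (k+2)²)`, `B_l = ((lam-1)/lam)^l / 2^(l+2)`,
`eps 0 = min 1 ((C - lam)/(4 C rr K))`, `z 0 = eps 0`, `x0 = B_0 (eps 0)²`.  Recursively, given `z l` and `R_l = Rr d m l > 0`: apply StPa1 with
`z = z l` and `c > 0` so small that `C K c ≤ 1`, `8 k C K c ≤ 1`, `A0 R_l c ≤ x0`, and `c x0 ≤ B_(l+1) R_l`, and take `q0 l` a prime `≥ max N N0`,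
`d l = q0^e`, `m l = q0^e'`, `eps (l+1) = ε`, `z (l+1) = ζ`.  Then `flat`: `C K dm ≤ C K c ε ≤ ε`; `err`; `cap`: `A0 R_(l'+1) dm = A0 R_l' (d/m) dm ≤ A0 R_l' c ≤ x0` for all
`l'`, and `x0 ≤ B_l (eps l)² R_l` for all `l`: for `l = 0` equality (`R_0 = 1`), for `l + 1`: `x0 ≤ x0 c (eps (l+1))² d/m ≤ B_(l+1) R_l (eps (l+1))² d/m`.
(All numbers for all `l : ℕ`, by recursion on `l` with a state `(R, z, ...)`, or by `exists_seq`-style choice on `Σ`-types.) -/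
def StPa2 : Prop :=
  StPa1 → ∀ p : ℝ, 1 < p → p < 2 → ∃ r e e' : ℕ, 1 ≤ r ∧ 1 ≤ e' ∧ e' < e ∧ ∀ rr C K lam : ℝ, 1 < lam → lam < C → C < rr →
    1 ≤ K → ∀ N0 : ℕ, ∃ (k : ℕ) (q0 J Q s0 : ℕ → ℕ) (eps z tau ha hc : ℕ → ℝ), 1 ≤ k ∧
      (∀ l, N0 ≤ q0 l ∧ (q0 l).Prime ∧ r ≤ J l ∧ r.factorial * Q l < (J l - r) ^ r) ∧
      ParP p rr C K lam k (fun l => q0 l ^ e) (fun l => q0 l ^ e') J Q eps z tau ha hc s0

/-! ### consequences of the structure -/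

/-- GNP (descendants; compare `M_GEN` of helper84 in project XR).

Proof. Induction on `n`, `card_ch`, `ch_lev`, `tree`.  (1) `gen (n+1)` from the other side.  (2) level.  (3) the size of a union is at most the
sum of the sizes (children only exist below layer `k`).  (4) if `v` is in generation `n` of the two children `c ≠ c'` of `t`:
induction on `n`; `n = 0`: `v = c = c'`; `n + 1`: `v ∈ ch u`, `v ∈ ch u'` with `u ∈ gen c n`, `u' ∈ gen c' n`, both in `gen t (n+1)`, `u ≠ u'` by the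
induction hypothesis; contradiction to `tree`. -/
def StGnp : Prop :=
  ∀ (P : Type) [Fintype P] [DecidableEq P] (k b : ℕ) (d m J Q : ℕ → ℕ) (B : ℕ → ℝ) (g : LP P k b d m J Q B),
    (∀ t n, gen g.ch t (n + 1) = (g.ch t).biUnion fun c => gen g.ch c n) ∧
    (∀ t n, ∀ u ∈ gen g.ch t n, g.lev u = g.lev t + n) ∧
    (∀ t n, (gen g.ch t n).card ≤ ∏ i ∈ Ico (g.lev t) (g.lev t + n), d i) ∧
    (∀ t, ∀ c ∈ g.ch t, ∀ c' ∈ g.ch t, c ≠ c' → ∀ n, Disjoint (gen g.ch c n) (gen g.ch c' n))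

/-- ADJ (the adjoint matrix, and the number of vertices of a layer).

Proof. (1) `z_v = ∑_(c ∈ ch v) conj(σ c v) y_c` for `v` in layer `l`, zero otherwise: `∑‖z_v‖² = ∑_v z_v conj z_v = ∑_c conj(y_c) ∑_v σ c v z_v ≤
(∑‖y‖²)^(1/2) (B ∑‖z‖²)^(1/2)` by Cauchy-Schwarz and `l2`.  (2) `Al g t l` is the product of `{s : t s = 1}` and the layer `l`. -/
def StAdj : Prop :=
  ∀ (P : Type) [Fintype P] [DecidableEq P] (k b : ℕ) (d m J Q : ℕ → ℕ) (B : ℕ → ℝ) (g : LP P k b d m J Q B),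
    (∀ l, l < k → ∀ y : P → ℂ, ∑ v ∈ univ.filter (fun v => g.lev v = l), ‖∑ c ∈ g.ch v, star (g.σ c v) * y c‖ ^ 2 ≤
      B l * ∑ c, ‖y c‖ ^ 2) ∧
    ∀ (S : Type) [Fintype S] [DecidableEq S] (t : S → ℝ), ∀ l, l ≤ k →
      ((Al g t l).card : ℝ) = (univ.filter fun s => t s = 1).card * (Rr d m l * b)

/-- EEX (norm of `x`, flatness of the range of `E`, rank of `E`; compare `M_EEE` of helper2 in project XR).

Proof. (0) `x v` in layer `l + 1` is `C (d l)^(-1/p) A_l v_l`, `A_l` = the matrix of `l2`, whose columns have `d l` unimodular entries, so by StRth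
with `a = d l`, `b = (1+δ) d l`: `np p (A_l v_l) ≤ (d l) (1+δ)^(p-1) np p v_l`; sum over the layers: `np p (x v) ≤ C^p (1+δ)^(p-1) np p v ≤ r^p np p v`.  The matrix
`blk t x` acts on every block as `t s * x`, `0 ≤ t s ≤ 1`.  (1) `E f = f`, `E = x Y`: `f = x v`, `v = Y f`, `np p v ≤ K^p np p f`; for `i = (s, c)` with `c` in layer
`l + 1`: `‖f i‖ ≤ C (d l)^(-1/p) ∑_(u parent of c) ‖v (s,u)‖ ≤ C (d l)^(-1/p) (m l)^(1-1/p) (np p v)^(1/p)` (Hölder; at most `m l` parents, they are in layer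
`l`); `f i = 0` if `c` is in layer `0`.  (2) For the column `e_j`, `j = (s, c)`: `‖E j j‖ = ‖(x (Y e_j)) j‖ ≤ C dm (np p (Y e_j))^(1/p) ≤ C K dm` if `c` is in layer `l + 1`, `0` if `c` is in
layer `0`; there are `|S| b Rr (l+1)` such `j`; StRkt. -/
def StEex : Prop :=
  StRkt → StRth → ∀ (P : Type) [Fintype P] [DecidableEq P] (k b : ℕ) (d m J Q : ℕ → ℕ) (B : ℕ → ℝ)
    (g : LP P k b d m J Q B) (S : Type) [Fintype S] [DecidableEq S] (t : S → ℝ) (p C K r δ : ℝ), 1 < p → p < 2 →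
    (∀ l, 1 ≤ d l) → (∀ l, l < k → B l = (1 + δ) * d l) → 0 < C → 0 ≤ K → 0 < δ → 0 < r →
    C * (1 + δ) ^ (1 - 1 / p) ≤ r → (∀ s, 0 ≤ t s ∧ t s ≤ 1) →
    OpLe p (xm g p C) r ∧ OpLe p (blk t (xm g p C)) r ∧
    ∀ Y : Matrix (S × P) (S × P) ℂ, OpLe p Y K →
      (blk t (xm g p C) * Y) * (blk t (xm g p C) * Y) = blk t (xm g p C) * Y →
      (∀ f : S × P → ℂ, (blk t (xm g p C) * Y).mulVec f = f → ∀ i : S × P,
        ‖f i‖ ≤ (if g.lev i.2 = 0 then 0 else C * K * dm p (d (g.lev i.2 - 1)) (m (g.lev i.2 - 1))) *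
          np p f ^ (1 / p)) ∧
      ((blk t (xm g p C) * Y).rank : ℝ) ≤
        Fintype.card S * (b * (C * K * ∑ l ∈ range k, Rr d m (l + 1) * dm p (d l) (m l)))

/-! ### the induction -/

/-- BAX (the last layer, and the functional number `l` of the layer `l`; compare `M_BAS` of helper2 in project XR).

Proof. `Bad = ∅`, `ψ q j i = 1` if `q = k` and `i = j`, else `0`.  P1: `q = l = k`: `Ico k k = ∅`, `1 ^ _ = 1`.  P3 is empty, P4: `q = k`, `pc (ψ k j) f = f j`,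
flatness with `lev j.2 = k ≥ 1`; P5: `y1 = f`, `y2 = 0`. -/
def StBax : Prop :=
  ∀ (P : Type) [Fintype P] [DecidableEq P] (k b : ℕ) (d m J Q : ℕ → ℕ) (B : ℕ → ℝ) (g : LP P k b d m J Q B) (S : Type)
    [Fintype S] [DecidableEq S] (t : S → ℝ) (p lam : ℝ) (E : Matrix (S × P) (S × P) ℂ) (δ ε κ z β : ℝ), 1 < p → 1 ≤ k →
    δ ≤ ε → 1 ≤ κ → 0 ≤ β → (∀ l, 1 ≤ d l) →
    (∀ f : S × P → ℂ, E.mulVec f = f → ∀ i : S × P, g.lev i.2 = k → ‖f i‖ ≤ δ * np p f ^ (1 / p)) →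
    Inv g t p lam E ε κ z β k

/-- S1X (P1 and P2 for the new functionals; compare `M_SP1` of helper16).

Proof. P2: definition of `psiN`.  P1: `q = l`: `i = j`, `gen _ 0 = {j.2}`, empty product.  `q > l`: `psiN q j i = w (d l)^(1/p-1) ∑_(u∈Gs) conj σ ψ q u i`; a term is nonzero
only if `u = (j.1, c)`, `c ∈ ch j.2`, `u ∈ Al g t (l+1)`, `i.1 = j.1`, `i.2 ∈ gen c (q - l - 1) ⊆ gen j.2 (q - l)`; by StGnp (4) at most one `u` contributes, and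
`‖ψ q u i‖ ≤ (∏_(Ico (l+1) q) d)^(1/p-1)`, `0 ≤ w ≤ 1`, `‖σ‖ = 1`. -/
def StS1x : Prop :=
  StGnp → ∀ (P : Type) [Fintype P] [DecidableEq P] (k b : ℕ) (d m J Q : ℕ → ℕ) (B : ℕ → ℝ) (g : LP P k b d m J Q B)
    (S : Type) [Fintype S] [DecidableEq S] (t : S → ℝ) (p lam : ℝ) (Bad : Finset (S × P)) (l : ℕ)
    (ψ : ℕ → (S × P) → (S × P) → ℂ), 1 < p → 0 < lam → (∀ l, 1 ≤ d l) →
    l < k → P1 g t p (l + 1) ψ → P1 g t p l (psiN g p lam Bad l ψ) ∧ P2 g t l (psiN g p lam Bad l ψ)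

/-- S3X (the telescoping identity for the new functionals; compare `M_SP3` of helper90).

Proof. Let `j = (s, t') ∈ Al g t l`, not in `Few`, `G = Gs g Bad j`, `n = |G|`, `d l ≤ lam n` (so `n ≥ 1`), `w = d l / (lam n)`, `D = (d l)^(1/p-1)`.
`q = l`: `u = t'`, `∑_(c∈ch t') σ c t' psiN (l+1) j (s,c) = w D ∑_(c∈ch t') ∑_(u'∈G) σ c t' conj(σ u'.2 t') [(s,c) = u'] = w D n` (P2 for `ψ`, `‖σ‖ = 1`), times `lam`
gives `D d l = (d l)^(1/p)`.  `q > l`: `u ∈ gen t' (q-l)`, so `u ∈ gen c0 (q-l-1)` for a child `c0` of `t'`.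
`∑_(c∈ch u) σ c u psiN (q+1) j (s,c) = w D ∑_(u'∈G) conj σ ∑_(c∈ch u) σ c u ψ (q+1) u' (s,c)`.  For `u' = (s,c')` with `u ∈ gen c' (q-l-1)` use P3 for `ψ`
(`u' ∉ Bad`).  For the other `u' = (s,c')`: `ψ q u' (s,u) = 0` by P1, and `ψ (q+1) u' (s,c) = 0` for every `c ∈ ch u`: otherwise
`c ∈ gen c' (q-l)`, i.e. `c ∈ ch u''` with `u'' ∈ gen c' (q-l-1) ⊆ gen t' (q-l)`, `u'' ≠ u`, contradiction to `tree`.  So both sides are
`w D` times `(d q)^(1/p) ∑_(u'∈G) conj σ ψ q u' (s,u)`. -/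
def StS3x : Prop :=
  StGnp → ∀ (P : Type) [Fintype P] [DecidableEq P] (k b : ℕ) (d m J Q : ℕ → ℕ) (B : ℕ → ℝ) (g : LP P k b d m J Q B)
    (S : Type) [Fintype S] [DecidableEq S] (t : S → ℝ) (p lam : ℝ) (Bad : Finset (S × P)) (l : ℕ)
    (ψ : ℕ → (S × P) → (S × P) → ℂ), 1 < p → 0 < lam → (∀ l, 1 ≤ d l) → l < k → P1 g t p (l + 1) ψ →
    P2 g t (l + 1) ψ → P3 g t p lam Bad (l + 1) ψ → P3 g t p lam (Few g t lam Bad l) l (psiN g p lam Bad l ψ)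

/-- S5X (the decomposition for the new functionals; compare `M_SP5` of helper98).

Proof. `q = l`: `pc (psiN l j) f = f j`; `y1 = f`, `y2 = 0` (`κ ≥ 1`).  `q > l`: `pc (psiN q j) f = w_j (d l)^(1/p-1) ∑_(u∈Gs g Bad j) conj(σ u.2 j.2) pc (ψ q u) f`; apply
StDcp with `U` = the subtype of `Al g t (l+1)`, `T` = the subtype of `Al g t l`, `G j` = `Gs g Bad j` (contained in `Al g t (l+1)`), the phases `conj(σ u.2 j.2)`,
`w j = wt ...` (between `0` and `1`), the `y1, y2` of P5 for `ψ`; on `G j` the sum `y1 + y2 = pc (ψ q u) f` has norm `≤ ε (np p f)^(1/p) ≤ ε` by P4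
for `ψ`; two distinct `G j` share at most one element (`share`; different blocks are disjoint), `u` is in at most `m l` of the
`G j` (`card_par`, `lev u.2 - 1 = l`), `|G j| ≤ d l`.  The `l^2` hypothesis: StAdj (1) in every block, applied to `y` times the indicator of the complement of `Bad`
(`B l ≤ 2 d l`).  The core hypothesis: given `T', U'` (subsets of `Al g t l`, `Al g t (l+1)`), take a block `s` of an element of `T'`; the sets `{v : (s,v) ∈ T'}`,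
`{c : (s,c) ∈ U'}` satisfy the hypotheses of `g.core` (`G j ⊆ ch j`). -/
def StS5x : Prop :=
  StDcp → StBon → StPel → StAdj → ∀ (P : Type) [Fintype P] [DecidableEq P] (k b : ℕ) (d m J Q : ℕ → ℕ) (B : ℕ → ℝ)
    (g : LP P k b d m J Q B) (S : Type) [Fintype S] [DecidableEq S] (t : S → ℝ) (p lam : ℝ)
    (E : Matrix (S × P) (S × P) ℂ) (Bad : Finset (S × P)) (l : ℕ) (ψ : ℕ → (S × P) → (S × P) → ℂ)
    (κ ζ ε ha hc τ z : ℝ) (s0 : ℕ), 1 < p → p < 2 → 0 < lam → (∀ l, 1 ≤ d l) → l < k → B l ≤ 2 * d l →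
    P4 g t p E ε Bad (l + 1) ψ → P5 g t p E κ ζ (l + 1) ψ → 1 ≤ κ → 0 ≤ ζ → ζ ≤ ε →
    DecC p κ ζ ε z (2 * d l) ha hc τ (d l) (m l) s0 (J l) (Q l) →
    P5 g t p E (κ + 1) z l (psiN g p lam Bad l ψ)

/-- SCX (size of the sets of captured vertices; compare `M_SPC` of helper28).

Proof. For `j ∈ Cap` choose `f_j`; apply StCax with `T` = the subtype of `Cap`, `ψ j = ψ q j`, `L = κ + z`:
`∑_(j∈Cap) ‖pc (ψ q j) f‖² ≤ (‖y1‖_2 + ‖y2‖_2)² ≤ (κ + z)²` (Minkowski; `‖y1‖_2 ≤ ‖y1‖_p ≤ κ^(1/p) ≤ κ` as `p ≤ 2`, `κ ≥ 1`; for instance `∑‖y1‖² ≤ (∑‖y1‖^p)^(2/p)`). -/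
def StScx : Prop :=
  StCax → StTrh → ∀ (P : Type) [Fintype P] [DecidableEq P] (k b : ℕ) (d m J Q : ℕ → ℕ) (B : ℕ → ℝ)
    (g : LP P k b d m J Q B) (S : Type) [Fintype S] [DecidableEq S] (t : S → ℝ) (p : ℝ) (E : Matrix (S × P) (S × P) ℂ)
    (l q : ℕ) (ψ : ℕ → (S × P) → (S × P) → ℂ) (ρ κ z ε : ℝ), 1 < p → p < 2 → (E.rank : ℝ) ≤ ρ → 0 < ε → 1 ≤ κ → 0 ≤ z →
    l ≤ q → q ≤ k → P5 g t p E κ z l ψ → ((Cap g t p E ε ψ l q).card : ℝ) * ε ^ 2 ≤ ρ * (κ + z) ^ 2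

/-- SFX (size of the set of vertices with too few children outside `Bad`; compare `M_SPF` of helper79).

Proof. For `j ∈ Few`: `|ch j.2| = d l =: A`, `|Gs g Bad j| < A / lam`, so at least `A - A/lam = A (lam-1)/lam` of the `(j.1, c)`, `c ∈ ch j.2`,
lie in `Bad`.  Every element `u` of `Bad` arises from at most `m l` vertices `j ∈ Al g t l` (`j.1 = u.1`, `u.2 ∈ ch j.2`, `card_par`,
`lev u.2 = l + 1` since `Bad ⊆ Al g t (l+1)`).  So `|Few| A (lam-1)/lam ≤ m l |Bad|`. -/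
def StSfx : Prop :=
  ∀ (P : Type) [Fintype P] [DecidableEq P] (k b : ℕ) (d m J Q : ℕ → ℕ) (B : ℕ → ℝ) (g : LP P k b d m J Q B) (S : Type)
    [Fintype S] [DecidableEq S] (t : S → ℝ) (lam : ℝ) (Bad : Finset (S × P)) (l : ℕ), 1 < lam → l < k →
    Bad ⊆ Al g t (l + 1) →
    ((Few g t lam Bad l).card : ℝ) * (d l * ((lam - 1) / lam)) ≤ m l * Bad.card

/-- FNX (the contradiction; compare `M_FIN` of helper65).

Proof. Write `x = blk t (xm g p C)`, `E = x Y`, `1 - E = (1 - x) Z`, `θ = lam/C < 1`.  `Bad` of `Inv` for `l = 0` is not all of `Al g t 0` (`β < 1`, `Al g t 0` nonempty):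
let `j = (s, t0) ∈ Al g t 0`, `j ∉ Bad`, and `φ = ∑_(q ≤ k) θ^q ψ q j`.  With `e = e_j`: `pc φ e = φ j = 1` (`ψ 0 j j = 1`, and
`ψ q j j = 0` for `q ≥ 1` since the elements of `gen t0 q` have level `q`).  (A) `E e` is in the range of `E`, `np p (E e) ≤ (r K)^p`, P4:
`‖pc φ (E e)‖ ≤ ∑_q θ^q (eps 0) r K ≤ (eps 0) r K C/(C - lam) ≤ 1/4`.  (B) `pc φ ((1 - x) v) = ∑_i (φ i - (φ x) i) v i` with
`(φ x) i = ∑_(i') φ i' x i' i`; claim: for `v = Z e`, `np p v ≤ K^p`, the norm of this is `≤ 1/4`.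
Proof of the claim, `i = (s', u)`: `s' ≠ s`: both vanish (P1).  `s' = s` (`t s = 1`), `q = lev u`: `φ i = θ^q ψ q j i` and
`(φ x) i = θ^(q+1) C (d q)^(-1/p) ∑_(c∈ch u) σ c u ψ (q+1) j (s,c)`.  If `q < k`, `u ∈ gen t0 q`: equal by P3.  If `q < k`, `u ∉ gen t0 q`:
`φ i = 0`, and at most one `c ∈ ch u` is in `gen t0 (q+1)` (`par1`), so `‖(φ x) i‖ ≤ C (d q)^(-1/p) (D_(q+1))^(1/p-1)`, `D_(q+1) = ∏_(a≤q) d a`, and there are at most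
`m q |gen t0 (q+1)| ≤ m q D_(q+1)` such `u` for which it is not zero (StGnp (3), `card_par`); by Hölder (`∑_W ‖v‖ ≤ |W|^(1-1/p) (np p v)^(1/p)`) the
contribution of layer `q` is `≤ C (d q)^(-1/p) D^(1/p-1) (m q D)^(1-1/p) K = C K dm p (d q) (m q) ≤ 1/(8k)`.  If `q = k`: `ch u = ∅`, `φ i = θ^k ψ k j i`, of size at
most `θ^k D_k^(1/p-1)` on at most `D_k` elements: contribution `≤ θ^k K ≤ 1/8`.  (C) `1 = pc φ e = pc φ (E e) + pc φ ((1 - x) Z e)` has norm `≤ 1/2`. -/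
def StFnx : Prop :=
  StGnp → StAdj → ∀ (P : Type) [Fintype P] [DecidableEq P] (k b : ℕ) (d m J Q : ℕ → ℕ) (B : ℕ → ℝ)
    (g : LP P k b d m J Q B) (S : Type) [Fintype S] [DecidableEq S] (t : S → ℝ) (p r C K lam : ℝ)
    (eps z tau ha hc : ℕ → ℝ) (s0 : ℕ → ℕ) (Y Z : Matrix (S × P) (S × P) ℂ) (κ z' β : ℝ), 1 < p → p < 2 → 1 ≤ b →
    1 ≤ k → 1 < lam → lam < C → C < r → 1 ≤ K → ParP p r C K lam k d m J Q eps z tau ha hc s0 → (∃ s, t s = 1) → β < 1 →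
    OpLe p (blk t (xm g p C)) r → OpLe p Y K → OpLe p Z K →
    1 - blk t (xm g p C) * Y = (1 - blk t (xm g p C)) * Z →
    (blk t (xm g p C) * Y) * (blk t (xm g p C) * Y) = blk t (xm g p C) * Y →
    ¬ Inv g t p lam (blk t (xm g p C) * Y) (eps 0) κ z' β 0

/-- the finite theorem for the exponent `p` -/
def StFTp (p : ℝ) : Prop :=
  ∀ r : ℝ, 1 < r → ∀ K : ℝ, ∃ (N : ℕ) (x0 : Matrix (Fin N) (Fin N) ℂ), 0 < N ∧ OpLe p x0 r ∧
    ∀ (S : Type) [Fintype S] [DecidableEq S] (t : S → ℝ), (∀ s, 0 ≤ t s ∧ t s ≤ 1) → (∃ s, t s = 1) →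
      Fintype.card S ≤ 4 * (univ.filter fun s => t s = 1).card →
      ∀ Y Z : Matrix (S × Fin N) (S × Fin N) ℂ, OpLe p Y K → OpLe p Z K →
        (blk t x0 * Y) * (blk t x0 * Y) = blk t x0 * Y → 1 - blk t x0 * Y = (1 - blk t x0) * Z → False

end Pool.Agent.Helper63.XP
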