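import Pool.Agent.Helper63.XP.StB
import Pool.Agent.Helper63.XP.StA
import Pool.Agent.Helper63.XR.AllC

/-!
# Project XP: assembly, transfer to the crossed products
-/

set_option autoImplicit false

namespace Pool.Agent.Helper63.XP

open Finset Filter Topology MeasureTheory
open scoped ENNReal
open Pool.Agent.Helper63.XR (th rec gx cx StNew blk Geo StBlk th_add th_sub)
open Pool.Agent.Helper49.KX (FS cmp tw un ev Cov MS LY Rep act nrm IsFp StEvm StAlg)

section op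
variable {p : ℝ} (hO : StOpx) (hp : 1 ≤ p)
include hO hp

theorem op_add {m n : Type} [Fintype m] [Fintype n] {A B : Matrix m n ℂ} {a b : ℝ} (ha : 0 ≤ a) (hb : 0 ≤ b)
    (hA : OpLe p A a) (hB : OpLe p B b) : OpLe p (A + B) (a + b) := (hO p hp).1 _ _ _ _ _ _ ha hb hA hB

theorem op_mul {m n l : Type} [Fintype m] [Fintype n] [Fintype l] {A : Matrix m n ℂ} {B : Matrix n l ℂ} {a b : ℝ}
    (ha : 0 ≤ a) (hb : 0 ≤ b) (hA : OpLe p A a) (hB : OpLe p B b) : OpLe p (A * B) (a * b) :=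
  (hO p hp).2.1 _ _ _ _ _ _ _ ha hb hA hB

theorem op_one {m : Type} [Fintype m] [DecidableEq m] : OpLe p (1 : Matrix m m ℂ) 1 := (hO p hp).2.2.1 _

theorem op_neg {m n : Type} [Fintype m] [Fintype n] {A : Matrix m n ℂ} {a : ℝ} (hA : OpLe p A a) : OpLe p (-A) a :=
  (hO p hp).2.2.2.1 _ _ _ _ hA

theorem op_mono {m n : Type} [Fintype m] [Fintype n] {A : Matrix m n ℂ} {a b : ℝ} (hA : OpLe p A a) (ha : 0 ≤ a)
    (hab : a ≤ b) : OpLe p A b := (hO p hp).2.2.2.2.1 _ _ _ _ _ ha hab hA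

theorem op_sub {m n : Type} [Fintype m] [Fintype n] {A B : Matrix m n ℂ} {a b : ℝ} (ha : 0 ≤ a) (hb : 0 ≤ b)
    (hA : OpLe p A a) (hB : OpLe p B b) : OpLe p (A - B) (a + b) := by
  rw [sub_eq_add_neg]
  exact op_add hO hp ha hb hA (op_neg hO hp hB)

/-- the purely algebraic estimate for the approximate idempotent -/
theorem approx_idem {M : ℕ} (X W T1 T2 T3 GE T4 : Matrix (Fin M) (Fin M) ℂ) (R W0 ε δ' : ℝ) (hR : 0 ≤ R) (hW0 : 0 ≤ W0)
    (hε : 0 < ε) (hε1 : ε ≤ 1) (hδ' : 0 ≤ δ') (hX : OpLe p X R) (hW : OpLe p W W0) (h1 : OpLe p (T1 - X * X) ε)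
    (h2 : OpLe p (T2 - X * W) ε) (h3 : OpLe p (T3 - T1 * W) ε) (hGE : GE = X + T2 - T3)
    (h4 : OpLe p (T4 - GE * GE) ε) (h5 : OpLe p (T4 - GE) (δ' + ε)) :
    OpLe p ((X * (1 + (1 - X) * W)) * (X * (1 + (1 - X) * W)) - X * (1 + (1 - X) * W))
      (δ' + ε * (3 + W0 + 2 * ((R + R * W0 + R * (R * W0)) * (2 + W0)) + (2 + W0) ^ 2 + 1)) := by
  set E := X * (1 + (1 - X) * W) with hE
  set B := GE - E with hB
  have hBe : B = (T2 - X * W) - (T3 - T1 * W) - (T1 - X * X) * W := by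
    rw [hB, hGE, hE]; noncomm_ring
  have hBc : OpLe p B (ε * (2 + W0)) := by
    rw [hBe]
    have := op_sub hO hp (by positivity) (by positivity) (op_sub hO hp hε.le hε.le h2 h3)
      (op_mul hO hp hε.le hW0 h1 hW)
    exact op_mono hO hp this (by positivity) (by nlinarith)
  have hEc : OpLe p E (R + R * W0 + R * (R * W0)) := by
    have e1 : E = X + X * W - X * (X * W) := by rw [hE]; noncomm_ring
    rw [e1]
    exact op_sub hO hp (by positivity) (by positivity)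
      (op_add hO hp hR (by positivity) hX (op_mul hO hp hR hW0 hX hW))
      (op_mul hO hp hR (by positivity) hX (op_mul hO hp hR hW0 hX hW))
  have hGEe : GE = E + B := by rw [hB]; abel
  have hfin : E * E - E = (T4 - GE) - (E * B + B * E) - B * B - (T4 - GE * GE) + B := by
    rw [hGEe]; noncomm_ring
  rw [hfin]
  have hE0 : 0 ≤ R + R * W0 + R * (R * W0) := by positivity
  have hb0 : 0 ≤ ε * (2 + W0) := by positivity
  have := op_add hO hp (by positivity) hb0
    (op_sub hO hp (by positivity) hε.le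
      (op_sub hO hp (by positivity) (by positivity)
        (op_sub hO hp (by positivity) (by positivity) h5
          (op_add hO hp (by positivity) (by positivity) (op_mul hO hp hE0 hb0 hEc hBc) (op_mul hO hp hb0 hE0 hBc hEc)))
        (op_mul hO hp hb0 hb0 hBc hBc)) h4) hBc
  refine op_mono hO hp this (by positivity) ?_
  have e2 : ε * (2 + W0) * (ε * (2 + W0)) ≤ ε * (2 + W0) ^ 2 := by
    have : ε * (2 + W0) * (ε * (2 + W0)) = ε * (ε * (2 + W0) ^ 2) := by ring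
    rw [this]
    have h2 : ε * (2 + W0) ^ 2 ≤ (2 + W0) ^ 2 := by
      have : 0 ≤ (2 + W0) ^ 2 := by positivity
      nlinarith
    exact mul_le_mul_of_nonneg_left h2 hε.le
  nlinarith

end op

theorem orb_mono {X : Type} [TopologicalSpace X] {p : ℝ} (hp : 0 ≤ p) {h : X ≃ₜ X} {g : FS X} {c c' : ℝ}
    (hc0 : 0 ≤ c) (hc : OrbLe p h g c) (hcc : c ≤ c') : OrbLe p h g c' := by
  intro x ξ
  refine (hc x ξ).trans (mul_le_mul_of_nonneg_right (Real.rpow_le_rpow hc0 hcc hp) ?_)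
  exact tsum_nonneg fun m => Real.rpow_nonneg (norm_nonneg _) _

theorem transfer (p : ℝ≥0∞) [hF : Fact (1 ≤ p)] (hpt : p ≠ ∞) (hp2 : p ≠ 2) (hFT : StFTp p.toReal) (hO : StOpx)
    (hMLX : StMlx) (hNRX : StNrx) (hBLK : StBlk) (hXNX : StXnx) (hNEW : StNew) (hNEX : StNex) (hCPX : StCpx)
    (hEVM : StEvm) (hNRG : StNrg) (hNLX : StNlx) (hRAX : StRax) (hLOX : StLox) (hMUX : StMux) (hXSC : StXsc)
    (X : Type) [TopologicalSpace X] [CompactSpace X] (h : X ≃ₜ X) (hgeo : Geo h) (A : Type) [NormedRing A]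
    [NormedAlgebra ℂ A] (j : C(X, ℂ) →ₐ[ℂ] A) (U : Aˣ) (hA : IsFp p h A j U) (r : ℝ) (hr : 1 < r) (K : ℝ) :
    ∃ x : A, ‖x‖ ≤ r ∧ ¬ ∃ y z : A, ‖y‖ ≤ K ∧ ‖z‖ ≤ K ∧ (x * y) * (x * y) = x * y ∧ 1 - x * y = (1 - x) * z := by
  have hp1 : 1 ≤ p.toReal := by
    have := ENNReal.toReal_mono hpt hF.out
    simpa using this
  have hp0 : 0 ≤ p.toReal := by linarith
  set K0 : ℝ := max K 0 with hK0
  have hK00 : 0 ≤ K0 := le_max_right _ _
  set W0 : ℝ := 2 * K0 + 2 with hW0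
  set R0 : ℝ := r + 1 with hR0
  set K2 : ℝ := 1 + (1 + R0) * W0 with hK2
  have hW0p : 0 ≤ W0 := by positivity
  have hR0p : 0 ≤ R0 := by linarith
  obtain ⟨K', δ, hδ, hnem⟩ := hNEX hNEW p.toReal hp1 K2
  obtain ⟨N, x0, hN, hx0, hft⟩ := hFT r hr K'
  obtain ⟨t, f, hf01, hft1, hdis, hne, hcount⟩ := hgeo N
  set g0 : FS X := gx h x0 (cx f) with hg0
  obtain ⟨-, evadd, evsub, -, evmul⟩ := hEVM X h A j U hA.cov
  obtain ⟨-, nrm0, -⟩ := hNRG p hpt X h
  have hevn : ∀ g : FS X, ‖ev j U g‖ = nrm p h g := hA.norm_eq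
  have hg0n : nrm p h g0 ≤ r := hXNX hMUX hLOX hRAX hXSC p hpt hp2 X h N x0 f r (by linarith) hx0 hf01 hdis
  refine ⟨ev j U g0, ?_, ?_⟩
  · rw [hevn]; exact hg0n
  rintro ⟨y, z, hy, hz, hid, hone⟩
  set x := ev j U g0 with hx
  set w := y - z with hw
  have hwn : ‖w‖ < 2 * K0 + 1 := by
    have h1 := norm_sub_le y z
    have h2 : K ≤ K0 := le_max_left _ _
    rw [hw]; linarith
  have hxw : x * w = 1 - z := by
    have : 1 - x * y = z - x * z := by rw [hone]; noncomm_ring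
    rw [hw, mul_sub]
    rw [sub_eq_sub_iff_add_eq_add] at this ⊢
    rw [this, add_comm]
  have hyw : y = 1 + (1 - x) * w := by
    have h2 : (1 - x) * w = w - x * w := by noncomm_ring
    rw [h2, hxw, hw]; abel
  set F : A → A := fun w' => (x + x * w' - x * x * w') * (x + x * w' - x * x * w') - (x + x * w' - x * x * w') with hF'
  have hFw : F w = 0 := by
    have e1 : x + x * w - x * x * w = x * y := by rw [hyw]; noncomm_ring
    simp only [hF']
    rw [e1, hid, sub_self]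
  have hFc : Continuous F := by
    simp only [hF']
    fun_prop
  set T : ℝ := 3 + W0 + 2 * ((R0 + R0 * W0 + R0 * (R0 * W0)) * (2 + W0)) + (2 + W0) ^ 2 + 1 with hT
  have hTp : 0 < T := by positivity
  have hopen : IsOpen {w' : A | ‖w'‖ < 2 * K0 + 1 ∧ ‖F w'‖ < δ / 2} := by
    refine IsOpen.inter ?_ ?_
    · exact isOpen_lt continuous_norm continuous_const
    · exact isOpen_lt (continuous_norm.comp hFc) continuous_const
  obtain ⟨_, ⟨gw, rfl⟩, hgw⟩ := hA.dense.exists_mem_open hopen ⟨w, hwn, by rw [hFw, norm_zero]; linarith⟩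
  change ‖ev j U gw‖ < 2 * K0 + 1 ∧ ‖F (ev j U gw)‖ < δ / 2 at hgw
  set gE : FS X := g0 + tw h g0 gw - tw h (tw h g0 g0) gw with hgE
  set G : FS X := tw h gE gE - gE with hG
  have hevE : ev j U gE = x + x * ev j U gw - x * x * ev j U gw := by
    rw [hgE, evsub, evadd, evmul, evmul, evmul]
  have hevG : ev j U G = F (ev j U gw) := by
    rw [hG, evsub, evmul, hevE]
  have hGn : nrm p h G < δ / 2 := by rw [← hevn, hevG]; exact hgw.2
  have hwn' : nrm p h gw < 2 * K0 + 1 := by rw [← hevn]; exact hgw.1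
  have hGc : OrbLe p.toReal h G (δ / 2) := orb_mono hp0 (nrm0 G) (hNLX hNRG p hpt X h G).1 hGn.le
  have hwc : OrbLe p.toReal h gw (2 * K0 + 1) := orb_mono hp0 (nrm0 gw) (hNLX hNRG p hpt X h gw).1 hwn'.le
  have hxc : OrbLe p.toReal h g0 r := orb_mono hp0 (nrm0 g0) (hNLX hNRG p hpt X h g0).1 hg0n
  set ε : ℝ := min 1 (δ / (2 * T)) with hε
  have hεp : 0 < ε := by
    rw [hε]; exact lt_min one_pos (by positivity)
  have hε1 : ε ≤ 1 := min_le_left _ _
  have hεT : ε * T ≤ δ / 2 := by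
    have : ε ≤ δ / (2 * T) := min_le_right _ _
    calc ε * T ≤ δ / (2 * T) * T := mul_le_mul_of_nonneg_right this hTp.le
      _ = δ / 2 := by field_simp
  have E1 := hNRX p.toReal X h t G (δ / 2) ε hp1 (by positivity) hεp hGc
  have E2 := hNRX p.toReal X h t gw (2 * K0 + 1) ε hp1 (by positivity) hεp hwc
  have E3 := hNRX p.toReal X h t g0 r ε hp1 (by linarith) hεp hxc
  have E4 := hMLX p.toReal X h t g0 g0 ε hp1 hεp
  have E5 := hMLX p.toReal X h t g0 gw ε hp1 hεp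
  have E6 := hMLX p.toReal X h t (tw h g0 g0) gw ε hp1 hεp
  have E7 := hMLX p.toReal X h t gE gE ε hp1 hεp
  have E8 := hBLK X h t N x0 f hN hf01 hft1 hdis hcount
  haveI := hne
  obtain ⟨M, hM⟩ := (E1.and (E2.and (E3.and (E4.and (E5.and (E6.and (E7.and E8))))))).exists
  obtain ⟨m1, m2, m3, m4, m5, m6, m7, S, iS, dS, τ, ι, hι, hτ, hτ1, hcard, hbl, hsupp⟩ := hM
  set Xm := th h t M g0 with hXm
  set Wm := th h t M gw with hWm
  have hXc : OpLe p.toReal Xm R0 := op_mono hO hp1 m3 (by linarith) (by linarith)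
  have hWc : OpLe p.toReal Wm W0 := op_mono hO hp1 m2 (by positivity) (by linarith)
  have hGEm : th h t M gE = Xm + th h t M (tw h g0 gw) - th h t M (tw h (tw h g0 g0) gw) := by
    rw [hgE, th_sub, th_add]
  have hGm : th h t M G = th h t M (tw h gE gE) - th h t M gE := by rw [hG, th_sub]
  rw [hGm] at m1
  have hidm := approx_idem hO hp1 Xm Wm (th h t M (tw h g0 g0)) (th h t M (tw h g0 gw))
    (th h t M (tw h (tw h g0 g0) gw)) (th h t M gE) (th h t M (tw h gE gE)) R0 W0 ε (δ / 2) hR0p hW0p hεp hε1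
    (by positivity) hXc hWc m4 m5 m6 hGEm m7 m1
  have hY : OpLe p.toReal (1 + (1 - Xm) * Wm) K2 :=
    op_add hO hp1 zero_le_one (by positivity) (op_one hO hp1)
      (op_mul hO hp1 (by positivity) hW0p (op_sub hO hp1 zero_le_one hR0p (op_one hO hp1) hXc) hWc)
  have hZ : OpLe p.toReal (1 - Xm * Wm) K2 := by
    have := op_sub hO hp1 zero_le_one (by positivity) (op_one hO hp1) (op_mul hO hp1 hR0p hW0p hXc hWc)
    exact op_mono hO hp1 this (by positivity) (by nlinarith)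
  have hX2 : OpLe p.toReal Xm K2 := op_mono hO hp1 hXc hR0p (by nlinarith)
  obtain ⟨y', z', hy', hz', hid', hone'⟩ := hnem (Fin M) Xm (1 + (1 - Xm) * Wm) (1 - Xm * Wm) hX2 hY hZ
    (by noncomm_ring) (op_mono hO hp1 hidm (by positivity) (by linarith))
  obtain ⟨Y'', Z'', hY'', hZ'', hid'', hone''⟩ := hCPX p.toReal (S × Fin N) (Fin M) ι Xm y' z' K' hp1 hι hsupp hy' hz'
    hid' hone'
  have hsub : Xm.submatrix ι ι = blk τ x0 := by
    ext p p'
    exact hbl p p'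
  rw [hsub] at hid'' hone''
  exact hft S τ hτ hτ1 hcard Y'' Z'' hY'' hZ'' hid'' hone''

end Pool.Agent.Helper63.XP
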