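import Pool.Agent.Helper49.KX.Defs

/-!
# MP_c973ff_an: uniform failure of exchange, all `p ≠ 2`.  The definitions of the statement

The algebra `F^p_r(ℤ, X, h)` is described by `IsFp` (in `Pool/Agent/Helper49/KX/Defs.lean`, with `FS`, `cmp`, `ev`, `Cov`, `MS`, `LY`, `Bdd`, `Rep`, `act`, `nrm`).
-/

set_option autoImplicit false

namespace Pool.Agent.Helper63.XPS

open scoped BoundedContinuousFunction ENNReal

/-- the exchange property of one element `x` of a unital ring `R`: there is an idempotent `e ∈ x R` with `1 - e ∈ (1 - x) R` -/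
def Exch (R : Type) [Ring R] (x : R) : Prop := ∃ e : R, e * e = e ∧ (∃ y, e = x * y) ∧ ∃ z, 1 - e = (1 - x) * z

/-- the exchange property holds for `x` with constant `K` -/
def ExchLe {A : Type} [NormedRing A] (x : A) (K : ℝ) : Prop :=
  ∃ y z : A, ‖y‖ ≤ K ∧ ‖z‖ ≤ K ∧ (x * y) * (x * y) = x * y ∧ 1 - x * y = (1 - x) * z

/-- for every `r > 1` exchange fails in `A` uniformly on the ball of radius `r`, and the Banach algebra `ℕ →ᵇ A` of the bounded sequences in
`A` has an element of norm at most `r` without the exchange property -/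
def UniformlyFails (A : Type) [NormedRing A] : Prop :=
  ∀ r : ℝ, 1 < r → (∀ K : ℝ, ∃ x : A, ‖x‖ ≤ r ∧ ¬ ExchLe x K) ∧ ∃ x : ℕ →ᵇ A, ‖x‖ ≤ r ∧ ¬ Exch (ℕ →ᵇ A) x

/-- `F^p_r(ℤ, X, h)` exists, and exchange fails in it uniformly -/
def Fails (p : ℝ≥0∞) [Fact (1 ≤ p)] {X : Type} [TopologicalSpace X] [CompactSpace X] (h : X ≃ₜ X) : Prop :=
  (∃ (A : Type) (_ : NormedRing A) (_ : NormedAlgebra ℂ A) (j : C(X, ℂ) →ₐ[ℂ] A) (U : Aˣ),
    Pool.Agent.Helper49.KX.IsFp p h A j U) ∧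
  ∀ (A : Type) [NormedRing A] [NormedAlgebra ℂ A] (j : C(X, ℂ) →ₐ[ℂ] A) (U : Aˣ),
    Pool.Agent.Helper49.KX.IsFp p h A j U → UniformlyFails A

/-- every orbit is dense -/
def Minimal {X : Type} [TopologicalSpace X] (h : X ≃ₜ X) : Prop :=
  ∀ x, Dense (Set.range fun n : ℤ => (h ^ n : X ≃ₜ X) x)

end Pool.Agent.Helper63.XPS
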