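import Pool.Agent.Helper63.XP.AllB
import Pool.Agent.Helper63.XP.AllA2
import Pool.Agent.Helper63.XP.Stmt

/-!
# Project XP: from the finite theorem to the theorem
-/

set_option autoImplicit false

namespace Pool.Agent.Helper63.XP

open Finset Filter Topology MeasureTheory
open scoped BoundedContinuousFunction ENNReal
open Pool.Agent.Helper63.XR (StNew Geo StBlk)
open Pool.Agent.Helper49.KX (StEvm StAlg)
open Pool.Agent.Helper63.XPS (ExchLe Exch UniformlyFails Fails)

theorem fails_of_geo (hFTA : ∀ p : ℝ, 1 ≤ p → p ≠ 2 → StFTp p) (hO : StOpx)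
    (hMLX : StMlx) (hNRX : StNrx) (hBLK : StBlk) (hXNX : StXnx) (hNEW : StNew) (hNEX : StNex) (hCPX : StCpx)
    (hEVM : StEvm) (hALG : StAlg) (hEXX : StExx) (hNRG : StNrg) (hNLX : StNlx) (hRAX : StRax) (hLOX : StLox)
    (hMUX : StMux) (hXSC : StXsc) (p : ℝ≥0∞) [hF : Fact (1 ≤ p)] (hpt : p ≠ ∞) (hp2 : p ≠ 2)
    (X : Type) [TopologicalSpace X] [CompactSpace X] (h : X ≃ₜ X) (hg : Geo h) : Fails p h := by
  have hp1 : 1 ≤ p.toReal := by
    have := ENNReal.toReal_mono hpt hF.out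
    simpa using this
  have hp2' : p.toReal ≠ 2 := by
    intro h2
    apply hp2
    have h3 : ENNReal.ofReal p.toReal = p := ENNReal.ofReal_toReal hpt
    rw [← h3, h2]
    simp
  refine ⟨hEXX hNRG hNLX hEVM hALG p hpt X h, ?_⟩
  intro A _ _ j U hA r hr
  have key := fun K => transfer p hpt hp2 (hFTA p.toReal hp1 hp2') hO hMLX hNRX hBLK hXNX hNEW hNEX hCPX hEVM hNRG hNLX
    hRAX hLOX hMUX hXSC X h hg A j U hA r hr K
  exact ⟨key, Pool.Agent.Helper63.XR.seq_of_uniform A r hr key⟩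

end Pool.Agent.Helper63.XP
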