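import Pool.Agent.Helper63.XR.Defs
import Pool.Agent.Helper63.XR.DefsB
import Pool.Agent.Helper49.KX.Defs

/-!
# Project XP (MP_c973ff_an): uniform exchange fails for the L^p crossed products, all p ≠ 2.  Definitions
-/

set_option autoImplicit false

namespace Pool.Agent.Helper63.XP

open Finset
open Pool.Agent.Helper63.XR (gen blk wt)

/-- the `p`-th power of the `l^p` norm of a vector -/
noncomputable def np {J : Type} [Fintype J] (p : ℝ) (f : J → ℂ) : ℝ := ∑ j, ‖f j‖ ^ p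

/-- the norm of the matrix `M` as an operator `l^p → l^p` is at most `K` (for `K ≥ 0`) -/
def OpLe {m n : Type} [Fintype m] [Fintype n] (p : ℝ) (M : Matrix m n ℂ) (K : ℝ) : Prop :=
  ∀ v : n → ℂ, np p (M.mulVec v) ≤ K ^ p * np p v

/-- the bilinear pairing -/
noncomputable def pc {J : Type} [Fintype J] (φ : J → ℂ) (f : J → ℂ) : ℂ := ∑ j, φ j * f j

/-- `∏_(i < l) d i / m i` -/
noncomputable def Rr (d m : ℕ → ℕ) (l : ℕ) : ℝ := ∏ i ∈ range l, (d i : ℝ) / m i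

/-! ### one step graphs and layered graphs -/

/-- a bipartite graph with unimodular phases: `m * gg` vertices `V`, `d * gg` vertices `W`, every `v : V` has `d` children in `W`, every
`c : W` has at most `m` parents, two vertices share at most one child, the weighted adjacency matrix has `l^2` norm at
most `√B`, every core has more than `Q` elements in `W` -/
structure Stp (V W : Type) [Fintype V] [DecidableEq V] [Fintype W] [DecidableEq W] (d m gg J Q : ℕ) (B : ℝ) where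
  /-- the children -/
  ch : V → Finset W
  /-- the phases -/
  σ : W → V → ℂ
  cardV : Fintype.card V = m * gg
  cardW : Fintype.card W = d * gg
  card_ch : ∀ v, (ch v).card = d
  card_par : ∀ c, (univ.filter fun v => c ∈ ch v).card ≤ m
  share : ∀ u v, u ≠ v → (ch u ∩ ch v).card ≤ 1
  uni : ∀ c v, ‖σ c v‖ = 1
  l2 : ∀ y : V → ℂ, ∑ c, ‖∑ v ∈ univ.filter (fun v => c ∈ ch v), σ c v * y v‖ ^ 2 ≤ B * ∑ v, ‖y v‖ ^ 2
  core : ∀ (T : Finset V) (U : Finset W), T.Nonempty → (∀ t ∈ T, J ≤ (ch t ∩ U).card) →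
    (∀ u ∈ U, 2 ≤ (T.filter fun t => u ∈ ch t).card) → Q < U.card

/-- layered graphs with phases: layers `0, ..., k`, layer `l` has `b * Rr d m l` vertices, a vertex of layer `l < k` has `d l`
children (in layer `l + 1`), a vertex of layer `l + 1` has at most `m l` parents -/
structure LP (P : Type) [Fintype P] [DecidableEq P] (k b : ℕ) (d m J Q : ℕ → ℕ) (B : ℕ → ℝ) where
  /-- layer -/
  lev : P → ℕ
  /-- children -/
  ch : P → Finset P
  /-- phases, `σ c v` for a child `c` of `v` -/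
  σ : P → P → ℂ
  lev_le : ∀ v, lev v ≤ k
  ch_lev : ∀ v, ∀ c ∈ ch v, lev c = lev v + 1
  card_lev : ∀ l, l ≤ k → ((univ.filter fun v => lev v = l).card : ℝ) = Rr d m l * b
  card_ch : ∀ v, lev v < k → (ch v).card = d (lev v)
  card_par : ∀ c, (univ.filter fun v => c ∈ ch v).card ≤ m (lev c - 1)
  share : ∀ u v, u ≠ v → (ch u ∩ ch v).card ≤ 1
  tree : ∀ t n u v, u ∈ gen ch t n → v ∈ gen ch t n → u ≠ v → Disjoint (ch u) (ch v)
  par1 : ∀ t n u, u ∉ gen ch t n → (ch u ∩ gen ch t (n + 1)).card ≤ 1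
  uni : ∀ c v, ‖σ c v‖ = 1
  l2 : ∀ l, l < k → ∀ y : P → ℂ,
    ∑ c, ‖∑ v ∈ univ.filter (fun v => lev v = l ∧ c ∈ ch v), σ c v * y v‖ ^ 2 ≤ B l * ∑ v, ‖y v‖ ^ 2
  core : ∀ l, l < k → ∀ T U : Finset P, T.Nonempty → (∀ t ∈ T, lev t = l ∧ J l ≤ (ch t ∩ U).card) →
    (∀ u ∈ U, 2 ≤ (T.filter fun t => u ∈ ch t).card) → Q l < U.card

/-! ### the product graph -/

section product

variable {k : ℕ}

/-- the vertices of the product graph: for some `l` the coordinates `j < l` are in `W j`, the others in `V j` -/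
def PT (V W : Fin k → Type) : Type :=
  {u : (j : Fin k) → V j ⊕ W j // ∀ i j : Fin k, i < j → (u j).isRight = true → (u i).isRight = true}

noncomputable instance {V W : Fin k → Type} [∀ j, Fintype (V j)] [∀ j, Fintype (W j)] : Fintype (PT V W) :=
  Fintype.ofInjective (fun u : PT V W => u.1) (fun _ _ h => Subtype.ext h)

noncomputable instance {V W : Fin k → Type} : DecidableEq (PT V W) := Classical.decEq _

/-- the layer -/
def plev {V W : Fin k → Type} (u : PT V W) : ℕ := (univ.filter fun j => (u.1 j).isRight = true).card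

open Classical in
/-- the children in the product graph -/
noncomputable def pch {V W : Fin k → Type} [∀ j, Fintype (V j)] [∀ j, Fintype (W j)] (ch : ∀ j, V j → Finset (W j))
    (u : PT V W) : Finset (PT V W) :=
  univ.filter fun c => ∃ (j : Fin k) (v : V j) (w : W j), u.1 j = Sum.inl v ∧ c.1 j = Sum.inr w ∧ w ∈ ch j v ∧
    ∀ i, i ≠ j → c.1 i = u.1 i

/-- the phase of one coordinate -/
def ph1 {V W : Type} (σ : W → V → ℂ) : V ⊕ W → V ⊕ W → ℂ
  | Sum.inr w, Sum.inl v => σ w v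
  | _, _ => 1

/-- the phases in the product graph -/
noncomputable def pσ {V W : Fin k → Type} (σ : ∀ j, W j → V j → ℂ) (c u : PT V W) : ℂ :=
  ∏ j, ph1 (σ j) (c.1 j) (u.1 j)

end product

/-! ### the moment curve -/

/-- the point `(1, x, ..., x^(w-1))` of the moment curve -/
def vc {F : Type} [Field F] (w : ℕ) (x : F) : Fin w → F := fun a => x ^ (a : ℕ)

/-! ### the matrix and the functionals -/

section
variable {P : Type} [Fintype P] [DecidableEq P] {k b : ℕ} {d m J Q : ℕ → ℕ} {B : ℕ → ℝ} {S : Type} [Fintype S]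
  [DecidableEq S]

/-- the matrix `x` of a layered graph: `x e_v = (C / d l ^ (1/p)) ∑_(c child of v) σ c v e_c` for `v` in layer `l` -/
noncomputable def xm (g : LP P k b d m J Q B) (p C : ℝ) : Matrix P P ℂ :=
  fun c v => if c ∈ g.ch v then ((C / (d (g.lev v) : ℝ) ^ (1 / p) : ℝ) : ℂ) * g.σ c v else 0

open Classical in
/-- the vertices of layer `l` in the blocks with `t s = 1` -/
noncomputable def Al (g : LP P k b d m J Q B) (t : S → ℝ) (l : ℕ) : Finset (S × P) :=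
  univ.filter fun j => t j.1 = 1 ∧ g.lev j.2 = l

/-- the children of `j` outside `Bad` -/
def Gs (g : LP P k b d m J Q B) (Bad : Finset (S × P)) (j : S × P) : Finset (S × P) :=
  ((g.ch j.2).image fun c => (j.1, c)) \ Bad

/-- the functionals of layer `l` from those of layer `l + 1` -/
noncomputable def psiN (g : LP P k b d m J Q B) (p lam : ℝ) (Bad : Finset (S × P)) (l : ℕ)
    (ψ : ℕ → (S × P) → (S × P) → ℂ) : ℕ → (S × P) → (S × P) → ℂ :=
  fun q j i => if q = l then (if i = j then 1 else 0)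
    else if l < q then ((wt lam (d l) (Gs g Bad j).card * (d l : ℝ) ^ (1 / p - 1) : ℝ) : ℂ) *
      ∑ u ∈ Gs g Bad j, star (g.σ u.2 j.2) * ψ q u i else 0

/-- the vertices of layer `l` with too few children outside `Bad` -/
noncomputable def Few (g : LP P k b d m J Q B) (t : S → ℝ) (lam : ℝ) (Bad : Finset (S × P)) (l : ℕ) : Finset (S × P) :=
  (Al g t l).filter fun j => ¬ ((d l : ℝ) ≤ lam * (Gs g Bad j).card)

open Classical in
/-- the captured vertices of layer `l`, for the functional number `q` -/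
noncomputable def Cap (g : LP P k b d m J Q B) (t : S → ℝ) (p : ℝ) (E : Matrix (S × P) (S × P) ℂ) (ε : ℝ)
    (ψ : ℕ → (S × P) → (S × P) → ℂ) (l q : ℕ) : Finset (S × P) :=
  (Al g t l).filter fun j => ∃ f : S × P → ℂ, E.mulVec f = f ∧ np p f ≤ 1 ∧ ε ≤ ‖pc (ψ q j) f‖

/-- support and size of the functionals -/
def P1 (g : LP P k b d m J Q B) (t : S → ℝ) (p : ℝ) (l : ℕ) (ψ : ℕ → (S × P) → (S × P) → ℂ) : Prop :=
  ∀ j ∈ Al g t l, ∀ q i, ‖ψ q j i‖ ≤ (∏ a ∈ Ico l q, (d a : ℝ)) ^ (1 / p - 1) ∧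
    (ψ q j i ≠ 0 → l ≤ q ∧ q ≤ k ∧ i.1 = j.1 ∧ i.2 ∈ gen g.ch j.2 (q - l))

/-- the first functional -/
def P2 (g : LP P k b d m J Q B) (t : S → ℝ) (l : ℕ) (ψ : ℕ → (S × P) → (S × P) → ℂ) : Prop :=
  ∀ j ∈ Al g t l, ∀ i, ψ l j i = if i = j then 1 else 0

/-- the telescoping identity -/
def P3 (g : LP P k b d m J Q B) (t : S → ℝ) (p lam : ℝ) (Bad : Finset (S × P)) (l : ℕ)
    (ψ : ℕ → (S × P) → (S × P) → ℂ) : Prop :=
  ∀ j ∈ Al g t l, j ∉ Bad → ∀ q, l ≤ q → q < k → ∀ u ∈ gen g.ch j.2 (q - l),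
    (lam : ℂ) * ∑ c ∈ g.ch u, g.σ c u * ψ (q + 1) j (j.1, c) = (((d q : ℝ) ^ (1 / p) : ℝ) : ℂ) * ψ q j (j.1, u)

/-- the functionals nearly vanish on the range of `E` -/
def P4 (g : LP P k b d m J Q B) (t : S → ℝ) (p : ℝ) (E : Matrix (S × P) (S × P) ℂ) (ε : ℝ) (Bad : Finset (S × P))
    (l : ℕ) (ψ : ℕ → (S × P) → (S × P) → ℂ) : Prop :=
  ∀ j ∈ Al g t l, j ∉ Bad → ∀ q, l ≤ q → q ≤ k → ∀ f : S × P → ℂ, E.mulVec f = f →
    ‖pc (ψ q j) f‖ ≤ ε * np p f ^ (1 / p)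

/-- the decomposition of the vector of the values of the functionals -/
def P5 (g : LP P k b d m J Q B) (t : S → ℝ) (p : ℝ) (E : Matrix (S × P) (S × P) ℂ) (κ z : ℝ) (l : ℕ)
    (ψ : ℕ → (S × P) → (S × P) → ℂ) : Prop :=
  ∀ f : S × P → ℂ, E.mulVec f = f → np p f ≤ 1 → ∀ q, l ≤ q → q ≤ k → ∃ y1 y2 : S × P → ℂ,
    (∀ j ∈ Al g t l, pc (ψ q j) f = y1 j + y2 j) ∧ ∑ j ∈ Al g t l, ‖y1 j‖ ^ p ≤ κ ∧
      ∑ j ∈ Al g t l, ‖y2 j‖ ^ 2 ≤ z ^ 2

/-- the inductive statement -/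
def Inv (g : LP P k b d m J Q B) (t : S → ℝ) (p lam : ℝ) (E : Matrix (S × P) (S × P) ℂ) (ε κ z β : ℝ) (l : ℕ) : Prop :=
  ∃ (Bad : Finset (S × P)) (ψ : ℕ → (S × P) → (S × P) → ℂ), Bad ⊆ Al g t l ∧ P1 g t p l ψ ∧ P2 g t l ψ ∧
    P3 g t p lam Bad l ψ ∧ P4 g t p E ε Bad l ψ ∧ P5 g t p E κ z l ψ ∧ (Bad.card : ℝ) ≤ β * (Al g t l).card

end

/-! ### the parameters -/

/-- the numerical conditions of the decomposition step -/
structure DecC (p κ ζ ε z B ha hc τ : ℝ) (d m s0 J Q : ℕ) : Prop where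
  hc_pos : 0 < hc
  le : hc ≤ ha
  tau : 0 < τ
  sig : κ + 1 < s0 * τ ^ p
  sig2 : (s0 : ℝ) ^ 2 * (2 * ε) ^ p ≤ 1
  qq : κ * hc ^ (-p) ≤ Q
  ins : 3 * ((d : ℝ) ^ (2 / p - 2) * (m * κ * (2 * ε) ^ (2 - p) + κ ^ 2 * ha ^ (2 - 2 * p) + B * κ * hc ^ (2 - p) +
    2 * J * m * κ * ha ^ 2 * hc ^ (-p)) + 2 * κ * τ ^ (2 - p) * ha ^ p * hc ^ (-p)) ≤ (z / 2) ^ 2
  noi : (d : ℝ) ^ (2 / p - 2) * (d * m * ζ ^ 2) ≤ (z / 2) ^ 2

/-- the number `d^(-1/p) m^(1-1/p)` -/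
noncomputable def dm (p : ℝ) (d m : ℕ) : ℝ := (d : ℝ) ^ (-(1 / p)) * (m : ℝ) ^ (1 - 1 / p)

/-- the conditions on the parameters -/
structure ParP (p r C K lam : ℝ) (k : ℕ) (d m J Q : ℕ → ℕ) (eps z tau ha hc : ℕ → ℝ) (s0 : ℕ → ℕ) : Prop where
  md_pos : ∀ l, 1 ≤ m l ∧ m l ≤ d l
  eps_pos : ∀ l, l ≤ k → 0 < eps l ∧ eps l ≤ 1
  z_pos : ∀ l, l ≤ k → 0 < z l ∧ z l ≤ eps l
  eps0 : eps 0 * (C * (r * K)) ≤ (C - lam) / 4
  flat : ∀ l, l < k → C * K * dm p (d l) (m l) ≤ eps (l + 1)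
  err : ∀ l, l < k → C * K * dm p (d l) (m l) * (8 * k) ≤ 1
  dec : ∀ l, l < k → DecC p (k + 1) (z (l + 1)) (eps (l + 1)) (z l) (2 * d l) (ha l) (hc l) (tau l) (d l) (m l) (s0 l)
    (J l) (Q l)
  cap : ∀ l, l < k → ∀ l', l' < k → (k + 1 : ℝ) * (4 * k * C * K * ((k : ℝ) + 2) ^ 2) *
    (Rr d m (l' + 1) * dm p (d l') (m l')) ≤ (((lam - 1) / lam) ^ l / 2 ^ (l + 2)) * eps l ^ 2 * Rr d m l
  last : (lam / C) ^ k * (8 * K) ≤ 1

end Pool.Agent.Helper63.XP
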