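import Pool.Agent.Helper63.XP.AllC
import Pool.Agent.Helper63.XR.Fin
import Pool.Agent.Helper38.KX.M_EVM
import Pool.Agent.Helper36.KX.M_ALG
import Pool.Agent.Helper11.XP.M_CPX
import Pool.Agent.Helper12.XP.M_EXX
import Pool.Agent.Helper13.XP.M_LOX
import Pool.Agent.Helper16.XP.M_PRB
import Pool.Agent.Helper18.XP.M_MLX
import Pool.Agent.Helper2.XP.M_FPL
import Pool.Agent.Helper2.XP.M_RTH
import Pool.Agent.Helper21.XP.M_MUX
import Pool.Agent.Helper28.XP.M_PRC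
import Pool.Agent.Helper29.XP.M_OPX
import Pool.Agent.Helper37.XP.M_SCX
import Pool.Agent.Helper38.XP.M_PEL
import Pool.Agent.Helper39.XP.M_PA2
import Pool.Agent.Helper42.XP.M_DUA
import Pool.Agent.Helper44.XP.M_GNP
import Pool.Agent.Helper45.XP.M_NEX
import Pool.Agent.Helper47.XP.M_GDT
import Pool.Agent.Helper51.XP.M_S3X
import Pool.Agent.Helper52.XP.M_EEX
import Pool.Agent.Helper57.XP.M_S5X
import Pool.Agent.Helper6.XP.M_SFX
import Pool.Agent.Helper62.XP.M_RAX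
import Pool.Agent.Helper64.XP.M_NLX
import Pool.Agent.Helper73.XP.M_ADJ
import Pool.Agent.Helper74.XP.M_FNX
import Pool.Agent.Helper75.XP.M_NRX
import Pool.Agent.Helper78.XP.M_NRG
import Pool.Agent.Helper79.XP.M_RNH
import Pool.Agent.Helper8.XP.M_XNX
import Pool.Agent.Helper80.XP.M_CAX
import Pool.Agent.Helper81.XP.M_COR
import Pool.Agent.Helper89.XP.M_PA1
import Pool.Agent.Helper9.XP.M_DCP
import Pool.Agent.Helper93.XP.M_PRA
import Pool.Agent.Helper94.XP.M_S1X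
import Pool.Agent.Helper96.XP.M_XSC
import Pool.Agent.Helper99.XP.M_BAX

/-!
# Project XP: the theorem
-/

set_option autoImplicit false

namespace Pool.Agent.Helper63.XP

open Finset Filter Topology MeasureTheory
open scoped BoundedContinuousFunction ENNReal
open Pool.Agent.Helper63.XPS (Fails Minimal)
open Pool.Agent.Helper63.XR (Geo)

theorem hFTA : ∀ p : ℝ, 1 ≤ p → p ≠ 2 → StFTp p :=
  ftp_all Pool.Agent.Helper29.XP.hOPX Pool.Agent.Helper42.XP.hDUA (ftp1 Pool.Agent.Helper29.XP.hOPX Pool.Agent.Helper63.XR.hFT)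
    (ftp12 Pool.Agent.Helper29.XP.hOPX Pool.Agent.Helper48.XR.hTRH Pool.Agent.Helper92.XR.hRKT Pool.Agent.Helper63.XR.hBON
      Pool.Agent.Helper38.XP.hPEL Pool.Agent.Helper80.XP.hCAX Pool.Agent.Helper9.XP.hDCP Pool.Agent.Helper2.XP.hRTH
      Pool.Agent.Helper81.XP.hCOR Pool.Agent.Helper2.XP.hFPL Pool.Agent.Helper79.XP.hRNH Pool.Agent.Helper47.XP.hGDT
      Pool.Agent.Helper93.XP.hPRA Pool.Agent.Helper16.XP.hPRB Pool.Agent.Helper28.XP.hPRC0 Pool.Agent.Helper89.XP.hPA1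
      Pool.Agent.Helper39.XP.hPA2 Pool.Agent.Helper44.XP.hGNP Pool.Agent.Helper73.XP.hADJ Pool.Agent.Helper52.XP.hEEX
      Pool.Agent.Helper99.XP.hBAX Pool.Agent.Helper94.XP.hS1X Pool.Agent.Helper51.XP.hS3X Pool.Agent.Helper57.XP.hS5X
      Pool.Agent.Helper37.XP.hSCX Pool.Agent.Helper6.XP.hSFX Pool.Agent.Helper74.XP.hFNX)

theorem fails (p : ℝ≥0∞) [hF : Fact (1 ≤ p)] (hpt : p ≠ ∞) (hp2 : p ≠ 2) (X : Type) [TopologicalSpace X]
    [CompactSpace X] (h : X ≃ₜ X) (hg : Geo h) : Fails p h :=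
  fails_of_geo hFTA Pool.Agent.Helper29.XP.hOPX Pool.Agent.Helper18.XP.hMLX
    Pool.Agent.Helper75.XP.hNRX Pool.Agent.Helper12.XR.hBLK Pool.Agent.Helper8.XP.hXNX Pool.Agent.Helper36.XR.hNEW
    Pool.Agent.Helper45.XP.hNEX Pool.Agent.Helper11.XP.hCPX Pool.Agent.Helper38.KX.hEVM Pool.Agent.Helper36.KX.hALG
    Pool.Agent.Helper12.XP.hEXX Pool.Agent.Helper78.XP.hNRG Pool.Agent.Helper64.XP.hNLX Pool.Agent.Helper62.XP.hRAX
    Pool.Agent.Helper13.XP.hLOX Pool.Agent.Helper21.XP.hMUX Pool.Agent.Helper96.XP.hXSC p hpt hp2 X h hg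

theorem thm : ∀ (p : ℝ≥0∞) [Fact (1 ≤ p)], p ≠ ∞ → p ≠ 2 →
    (∀ (X : Type) [TopologicalSpace X] [TopologicalSpace.MetrizableSpace X] [CompactSpace X] [TotallyDisconnectedSpace X]
      [Infinite X] (h : X ≃ₜ X), Minimal h → Fails p h) ∧
    ∀ θ : ℝ, Irrational θ → Fails p (Homeomorph.mulLeft (Circle.exp (2 * Real.pi * θ))) := by
  intro p _ hpt hp2
  refine ⟨?_, ?_⟩
  · intro X _ _ _ _ _ h hmin
    letI := TopologicalSpace.metrizableSpaceMetric X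
    exact fails p hpt hp2 X h (Pool.Agent.Helper80.XR.hGCA Pool.Agent.Helper92.XR.hREC X h hmin)
  · intro θ hθ
    exact fails p hpt hp2 _ _ (Pool.Agent.Helper71.XR.hGCI Pool.Agent.Helper65.XR.hGAD Pool.Agent.Helper16.XR.hGCJ
      Pool.Agent.Helper92.XR.hREC θ hθ)

end Pool.Agent.Helper63.XP
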